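import Pool.Agent.N737.BC.Sums
import Pool.Agent.N737.BC.Alg

set_option autoImplicit false

namespace Pool.Agent.N737.AI

open Finset
open Pool.Agent.N737.BC (BadP card_cong modEq_of_dvd_add sq_split PP mem_PP sum_inv primes_small)

/-- the product of the odd numbers below `2 z` -/
def mm (z : ℕ) : ℕ := ∏ k ∈ range z, (2 * k + 1)

def VV (z : ℕ) : ℕ := 4 * mm z

def WW (z : ℕ) : ℕ := (VV z) ^ 4

def TT (z t : ℕ) : ℕ := WW z * t + (mm z) ^ 16

def RR (z ρ i : ℕ) : ℕ := WW z * i + (ρ * (mm z) ^ 16 + 64)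

lemma mm_pos (z : ℕ) : 0 < mm z := Finset.prod_pos (fun k _ => by omega)

lemma VV_pos (z : ℕ) : 0 < VV z := Nat.mul_pos (by norm_num) (mm_pos z)

lemma WW_pos (z : ℕ) : 0 < WW z := pow_pos (VV_pos z) 4

lemma mm_odd (z : ℕ) : mm z % 2 = 1 := by
  unfold mm
  induction z with
  | zero => simp
  | succ n ih =>
    rw [prod_range_succ, Nat.mul_mod, ih]
    omega

lemma dvd_mm {z p : ℕ} (h : p < 2 * z) (hp : p % 2 = 1) : p ∣ mm z := by
  have h1 : p = 2 * (p / 2) + 1 := by omega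
  rw [h1]
  exact Finset.dvd_prod_of_mem (fun k => 2 * k + 1) (mem_range.2 (by omega))

lemma not_dvd_mm {z p : ℕ} (hp : p.Prime) (h : 2 * z ≤ p) : ¬ p ∣ mm z := by
  intro hd
  obtain ⟨k, hk, hk2⟩ := (Prime.dvd_finsetProd_iff hp.prime _).1 hd
  have := Nat.le_of_dvd (by omega) hk2
  have := mem_range.1 hk
  omega

lemma cop_WW {z p : ℕ} (hp : p.Prime) (hp2 : p ≠ 2) (h : 2 * z ≤ p) : Nat.Coprime p (WW z) := by
  rw [Nat.Prime.coprime_iff_not_dvd hp]
  intro hd
  have h1 := hp.dvd_of_dvd_pow hd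
  rcases (Nat.Prime.dvd_mul hp).1 h1 with h2 | h2
  · have h3 : p ∣ 2 ^ 2 := by simpa using h2
    have h4 := hp.dvd_of_dvd_pow h3
    have := Nat.le_of_dvd (by norm_num) h4
    have := hp.two_le
    omega
  · exact not_dvd_mm hp h h2

lemma cong {q W c t t' : ℕ} (hq : Nat.Coprime q W) (h : W * t + c ≡ W * t' + c [MOD q]) :
    t % q = t' % q :=
  Nat.ModEq.cancel_left_of_coprime hq (Nat.ModEq.add_right_cancel' _ h)

open Classical in
lemma cntA {p W c : ℕ} (hp : p.Prime) (hW : Nat.Coprime p W) (H : ℕ) :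
    ((range H).filter (fun t => p ∣ W * t + c)).card ≤ H / p + 1 := by
  apply card_cong hp.pos
  · intro t ht; exact mem_range.1 (mem_filter.1 ht).1
  · intro t ht t' ht'
    apply cong hW (c := c)
    exact ((Nat.modEq_zero_iff_dvd).2 (mem_filter.1 ht).2).trans
      ((Nat.modEq_zero_iff_dvd).2 (mem_filter.1 ht').2).symm

open Classical in
/-- at most `4 (H / p ^ 2 + 1)` values of `t` are bad for a prime which does not divide `r` -/
lemma cntP {p W c : ℕ} (hp : p.Prime) (h17 : 17 ≤ p) (hW : Nat.Coprime p W) (H r : ℕ)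
    (hr : ¬ p ∣ r) :
    ((range H).filter (fun t => BadP p (W * t + c) r)).card ≤ 4 * (H / p ^ 2 + 1) := by
  have hq : Nat.Coprime (p ^ 2) W := Nat.Coprime.pow_left 2 hW
  have hq0 : 0 < p ^ 2 := pow_pos hp.pos 2
  set S1 := (range H).filter (fun t => W * t + c ≡ r [MOD p ^ 2]) with hS1
  set S2 := (range H).filter (fun t => p ^ 2 ∣ W * t + c + r) with hS2
  set S3 := (range H).filter (fun t => p ^ 2 ∣ (W * t + c) ^ 2 + r ^ 2) with hS3
  have h1 : S1.card ≤ H / p ^ 2 + 1 := by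
    apply card_cong hq0
    · intro t ht; exact mem_range.1 (mem_filter.1 ht).1
    · intro t ht t' ht'
      exact cong hq ((mem_filter.1 ht).2.trans (mem_filter.1 ht').2.symm)
  have h2 : S2.card ≤ H / p ^ 2 + 1 := by
    apply card_cong hq0
    · intro t ht; exact mem_range.1 (mem_filter.1 ht).1
    · intro t ht t' ht'
      exact cong hq (modEq_of_dvd_add (mem_filter.1 ht).2 (mem_filter.1 ht').2)
  have h3 : S3.card ≤ 2 * (H / p ^ 2 + 1) := by
    rcases S3.eq_empty_or_nonempty with h | ⟨s, hs⟩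
    · rw [h]; simp
    · have hs2 := (mem_filter.1 hs).2
      have hsT : ¬ p ∣ W * s + c := by
        intro hd
        have h5 : p ∣ (W * s + c) ^ 2 + r ^ 2 := (dvd_pow_self p (by norm_num)).trans hs2
        have h6 : p ∣ r ^ 2 := (Nat.dvd_add_right (hd.trans (dvd_pow_self _ (by norm_num)))).1 h5
        exact hr (hp.dvd_of_dvd_pow h6)
      have hsub : S3 ⊆ (range H).filter (fun t => W * t + c ≡ W * s + c [MOD p ^ 2]) ∪
          (range H).filter (fun t => p ^ 2 ∣ (W * t + c) + (W * s + c)) := by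
        intro t ht
        have ht2 := (mem_filter.1 ht).2
        rcases sq_split hp h17 hsT hs2 ht2 with h | h
        · exact mem_union_left _ (mem_filter.2 ⟨(mem_filter.1 ht).1, h⟩)
        · exact mem_union_right _ (mem_filter.2 ⟨(mem_filter.1 ht).1, h⟩)
      have c1 : ((range H).filter (fun t => W * t + c ≡ W * s + c [MOD p ^ 2])).card ≤
          H / p ^ 2 + 1 := by
        apply card_cong hq0
        · intro t ht; exact mem_range.1 (mem_filter.1 ht).1
        · intro t ht t' ht'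
          exact cong hq ((mem_filter.1 ht).2.trans (mem_filter.1 ht').2.symm)
      have c2 : ((range H).filter (fun t => p ^ 2 ∣ (W * t + c) + (W * s + c))).card ≤
          H / p ^ 2 + 1 := by
        apply card_cong hq0
        · intro t ht; exact mem_range.1 (mem_filter.1 ht).1
        · intro t ht t' ht'
          exact cong hq (modEq_of_dvd_add (mem_filter.1 ht).2 (mem_filter.1 ht').2)
      have := (card_le_card hsub).trans (card_union_le _ _)
      omega
  have hsub : (range H).filter (fun t => BadP p (W * t + c) r) ⊆ S1 ∪ (S2 ∪ S3) := by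
    intro t ht
    have ht1 := (mem_filter.1 ht).1
    rcases (mem_filter.1 ht).2 with h | ⟨-, h | h | h⟩
    · exact absurd h.2 hr
    · exact mem_union_left _ (mem_filter.2 ⟨ht1, h⟩)
    · exact mem_union_right _ (mem_union_left _ (mem_filter.2 ⟨ht1, h⟩))
    · exact mem_union_right _ (mem_union_right _ (mem_filter.2 ⟨ht1, h⟩))
  have h4 := card_le_card hsub
  have h5 := card_union_le S1 (S2 ∪ S3)
  have h6 := card_union_le S2 S3
  omega

/-- the primes from `2 z` to `B - 1` -/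
noncomputable def QQ (z B : ℕ) : Finset ℕ := (range B).filter (fun p => p.Prime ∧ 2 * z ≤ p)

lemma mem_QQ {z B p : ℕ} : p ∈ QQ z B ↔ p < B ∧ p.Prime ∧ 2 * z ≤ p := by
  simp [QQ]

lemma QQ_sub {z B : ℕ} (hz : 9 ≤ z) : QQ z B ⊆ PP B := by
  intro p hp
  rw [mem_QQ] at hp
  rw [mem_PP]
  exact ⟨hp.1, hp.2.1, by omega⟩

lemma QQ_sq {z B : ℕ} (hz : 1 ≤ z) : ∑ p ∈ QQ z B, 1 / (p : ℝ) ^ 2 ≤ 1 / (z : ℝ) := by
  have h1 : ∑ p ∈ QQ z B, 1 / (p : ℝ) ^ 2 ≤ ∑ p ∈ Ioo (2 * z - 1) B, ((p : ℝ) ^ 2)⁻¹ := by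
    have e : ∑ p ∈ QQ z B, 1 / (p : ℝ) ^ 2 = ∑ p ∈ QQ z B, ((p : ℝ) ^ 2)⁻¹ :=
      sum_congr rfl (fun _ _ => by rw [one_div])
    rw [e]
    apply sum_le_sum_of_subset_of_nonneg
    · intro p hp
      rw [mem_QQ] at hp
      rw [mem_Ioo]
      omega
    · intro _ _ _; positivity
  have h2 := sum_Ioo_inv_sq_le (α := ℝ) (2 * z - 1) B
  have h3 : (((2 * z - 1 : ℕ) : ℝ) + 1) = 2 * z := by
    have : ((2 * z - 1 : ℕ) : ℝ) = 2 * z - 1 := by
      rw [Nat.cast_sub (by omega)]; push_cast; ring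
    rw [this]; ring
  rw [h3] at h2
  have hz0 : (0 : ℝ) < z := by exact_mod_cast hz
  have h4 : (2 : ℝ) / (2 * z) = 1 / z := by field_simp
  rw [h4] at h2
  exact h1.trans h2

lemma sqf {T r n z : ℕ} (hz : 9 ≤ z) (hn : 16 * n + r ^ 4 = T ^ 4)
    (h4 : n % 4 ≠ 0) (hsm : ∀ p : ℕ, p.Prime → p ≠ 2 → p < 2 * z → p ∣ T ∧ ¬ p ∣ r)
    (hbad : ∀ p : ℕ, p.Prime → 2 * z ≤ p → ¬ BadP p T r) :
    Squarefree n := by
  rw [Nat.squarefree_iff_prime_squarefree]
  intro p hp hpp
  have hpn : p ∣ n := (dvd_mul_right p p).trans hpp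
  by_cases hp2 : p = 2
  · subst hp2
    apply h4
    exact Nat.mod_eq_zero_of_dvd hpp
  rcases Nat.lt_or_ge p (2 * z) with h15 | h17
  · -- small odd primes
    obtain ⟨h1, h1'⟩ := hsm p hp hp2 h15
    have h2 : p ∣ r ^ 4 :=
      (Nat.dvd_add_right (hpn.mul_left 16)).1 (hn ▸ h1.trans (dvd_pow_self _ (by norm_num)))
    exact h1' (hp.dvd_of_dvd_pow h2)
  · have h18 : 17 ≤ p := by omega
    apply hbad p hp h17
    by_cases hr : p ∣ r
    · left
      refine ⟨?_, hr⟩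
      have h1 : p ∣ T ^ 4 := by
        rw [← hn]
        exact dvd_add (hpn.mul_left 16) (hr.trans (dvd_pow_self _ (by norm_num)))
      exact hp.dvd_of_dvd_pow h1
    · right
      refine ⟨hr, ?_⟩
      have hTn : ¬ p ∣ T := by
        intro hd
        have h1 : p ∣ r ^ 4 :=
          (Nat.dvd_add_right (hpn.mul_left 16)).1 (hn ▸ hd.trans (dvd_pow_self _ (by norm_num)))
        exact hr (hp.dvd_of_dvd_pow h1)
      have hpz : Prime (p : ℤ) := Nat.prime_iff_prime_int.1 hp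
      have hdiv : ((p : ℤ) ^ 2) ∣ ((T : ℤ) - r) * (((T : ℤ) + r) * ((T : ℤ) ^ 2 + (r : ℤ) ^ 2)) := by
        have h1 : ((p : ℤ) ^ 2) ∣ ((n : ℕ) : ℤ) := by
          have : p ^ 2 ∣ n := by rw [sq]; exact hpp
          exact_mod_cast this
        have e : ((T : ℤ) - r) * (((T : ℤ) + r) * ((T : ℤ) ^ 2 + (r : ℤ) ^ 2)) = 16 * (n : ℤ) := by
          have : (16 * (n : ℤ) + (r : ℤ) ^ 4) = (T : ℤ) ^ 4 := by exact_mod_cast hn
          linear_combination -this
        rw [e]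
        exact h1.mul_left 16
      have hp2T : ¬ (p : ℤ) ∣ 2 * (T : ℤ) := by
        intro h
        have h6 : p ∣ 2 * T := by exact_mod_cast h
        rcases (Nat.Prime.dvd_mul hp).1 h6 with h7 | h7
        · have := Nat.le_of_dvd (by norm_num) h7; omega
        · exact hTn h7
      have hp2r : ¬ (p : ℤ) ∣ 2 * ((r : ℤ) ^ 2) := by
        intro h
        have h6 : p ∣ 2 * r ^ 2 := by exact_mod_cast h
        rcases (Nat.Prime.dvd_mul hp).1 h6 with h7 | h7
        · have := Nat.le_of_dvd (by norm_num) h7; omega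
        · exact hr (hp.dvd_of_dvd_pow h7)
      by_cases hd1 : (p : ℤ) ∣ (T : ℤ) - r
      · left
        have hd2 : ¬ (p : ℤ) ∣ (T : ℤ) + r := by
          intro h
          apply hp2T
          have := dvd_add hd1 h
          have e : ((T : ℤ) - r) + ((T : ℤ) + r) = 2 * (T : ℤ) := by ring
          rwa [e] at this
        have hd3 : ¬ (p : ℤ) ∣ (T : ℤ) ^ 2 + (r : ℤ) ^ 2 := by
          intro h
          apply hp2r
          have := dvd_sub h (hd1.mul_right ((T : ℤ) + r))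
          have e : ((T : ℤ) ^ 2 + (r : ℤ) ^ 2) - ((T : ℤ) - r) * ((T : ℤ) + r) =
            2 * ((r : ℤ) ^ 2) := by ring
          rwa [e] at this
        have hc : IsCoprime ((p : ℤ) ^ 2) (((T : ℤ) + r) * ((T : ℤ) ^ 2 + (r : ℤ) ^ 2)) :=
          IsCoprime.pow_left (IsCoprime.mul_right ((Prime.coprime_iff_not_dvd hpz).2 hd2)
            ((Prime.coprime_iff_not_dvd hpz).2 hd3))
        have h8 := hc.dvd_of_dvd_mul_right hdiv
        have h9 : ((r : ℤ)) ≡ (T : ℤ) [ZMOD ((p : ℤ) ^ 2)] := (Int.modEq_iff_dvd).2 h8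
        have h10 : r ≡ T [MOD p ^ 2] := by
          apply (Int.natCast_modEq_iff).1
          exact_mod_cast h9
        exact h10.symm
      · right
        have hc : IsCoprime ((p : ℤ) ^ 2) ((T : ℤ) - r) :=
          IsCoprime.pow_left ((Prime.coprime_iff_not_dvd hpz).2 hd1)
        have h8 := hc.dvd_of_dvd_mul_left hdiv
        by_cases hd2 : (p : ℤ) ∣ (T : ℤ) + r
        · left
          have hd3 : ¬ (p : ℤ) ∣ (T : ℤ) ^ 2 + (r : ℤ) ^ 2 := by
            intro h
            apply hp2r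
            have := dvd_sub h (hd2.mul_left ((T : ℤ) - r))
            have e : ((T : ℤ) ^ 2 + (r : ℤ) ^ 2) - ((T : ℤ) - r) * ((T : ℤ) + r) =
              2 * ((r : ℤ) ^ 2) := by ring
            rwa [e] at this
          have hc2 : IsCoprime ((p : ℤ) ^ 2) ((T : ℤ) ^ 2 + (r : ℤ) ^ 2) :=
            IsCoprime.pow_left ((Prime.coprime_iff_not_dvd hpz).2 hd3)
          have h9 := hc2.dvd_of_dvd_mul_right h8
          exact_mod_cast h9
        · right
          have hc2 : IsCoprime ((p : ℤ) ^ 2) ((T : ℤ) + r) :=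
            IsCoprime.pow_left ((Prime.coprime_iff_not_dvd hpz).2 hd2)
          have h9 := hc2.dvd_of_dvd_mul_left h8
          exact_mod_cast h9

lemma VV_dvd {z p : ℕ} (h : p < 2 * z) (hp : p % 2 = 1) : p ∣ WW z := by
  unfold WW VV
  exact dvd_pow ((dvd_mm h hp).mul_left 4) (by norm_num)

lemma small_dvd {z ρ t i p : ℕ} (hp : p.Prime) (hp2 : p ≠ 2) (h : p < 2 * z) :
    p ∣ TT z t ∧ ¬ p ∣ RR z ρ i := by
  have hodd : p % 2 = 1 := by
    rcases hp.eq_two_or_odd with h1 | h1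
    · exact absurd h1 hp2
    · exact h1
  have hW := VV_dvd h hodd
  have hm := dvd_mm h hodd
  constructor
  · unfold TT
    exact dvd_add (hW.mul_right _) (dvd_pow hm (by norm_num))
  · intro hd
    unfold RR at hd
    have h1 := (Nat.dvd_add_right (hW.mul_right i)).1 hd
    have h2 := (Nat.dvd_add_right ((dvd_pow hm (by norm_num : 16 ≠ 0)).mul_left ρ)).1 h1
    have h3 : p ∣ 2 ^ 6 := by simpa using h2
    have h4 := hp.dvd_of_dvd_pow h3
    have := Nat.le_of_dvd (by norm_num) h4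
    have := hp.two_le
    omega

lemma mm16 (z : ℕ) : (mm z) ^ 16 % 64 = 1 := by
  have h := mm_odd z
  have h1 : mm z % 64 % 2 = 1 := by omega
  have h2 : mm z % 64 < 64 := Nat.mod_lt _ (by norm_num)
  rw [Nat.pow_mod]
  generalize mm z % 64 = a at h1 h2
  interval_cases a <;> first | rfl | omega

lemma WW_mod (z : ℕ) : ∃ w, WW z = 64 * w := ⟨4 * mm z ^ 4, by unfold WW VV; ring⟩

lemma pow4 (a : ℕ) (k : ℕ) (b : ℕ) (h : a = 64 * k + b) : ∃ A, a ^ 4 = 256 * A + b ^ 4 := by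
  refine ⟨65536 * k ^ 4 + 4096 * k ^ 3 * b + 96 * k ^ 2 * b ^ 2 + k * b ^ 3, ?_⟩
  subst h
  ring

/-- existence and class of `n` -/
lemma ex_n {z ρ a t i : ℕ} (ha : (16 * a + ρ ^ 4) % 256 = 1) (hlt : RR z ρ i < TT z t) :
    ∃ n, 16 * n + RR z ρ i ^ 4 = TT z t ^ 4 ∧ n % 16 = a % 16 := by
  obtain ⟨w, hw⟩ := WW_mod z
  have hm := mm16 z
  obtain ⟨m', hm'⟩ : ∃ m', (mm z) ^ 16 = 64 * m' + 1 := ⟨(mm z) ^ 16 / 64, by omega⟩
  obtain ⟨A, hA⟩ := pow4 (TT z t) (w * t + m') 1 (by unfold TT; rw [hw, hm']; ring)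
  obtain ⟨B, hB⟩ := pow4 (RR z ρ i) (w * i + ρ * m' + 1) ρ (by unfold RR; rw [hw, hm']; ring)
  have h4 : RR z ρ i ^ 4 < TT z t ^ 4 := Nat.pow_lt_pow_left hlt (by norm_num)
  refine ⟨(TT z t ^ 4 - RR z ρ i ^ 4) / 16, ?_, ?_⟩ <;> omega

end Pool.Agent.N737.AI
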