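import Pool.Agent.N737.AI.Sum

set_option autoImplicit false

namespace Pool.Agent.N737.AI

open Finset Filter
open Pool.Agent.N737.BC (BadP)

/-- the pair which belongs to `x` -/
def Loc (z ρ x t i : ℕ) : Prop :=
  16 * x + RR z ρ i ^ 4 ≤ TT z t ^ 4 ∧ TT z t ^ 4 < 16 * x + RR z ρ (i + 1) ^ 4 ∧
    ∀ s, s + 1 = t → TT z s ^ 4 < 16 * x + RR z ρ 0 ^ 4

lemma le_TT (z t : ℕ) : t ≤ TT z t := by
  unfold TT
  have : 1 * t ≤ WW z * t := Nat.mul_le_mul_right _ (WW_pos z)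
  omega

lemma le_RR (z ρ i : ℕ) : i ≤ RR z ρ i := by
  unfold RR
  have : 1 * i ≤ WW z * i := Nat.mul_le_mul_right _ (WW_pos z)
  omega

lemma locate (z ρ x : ℕ) : ∃ t i, Loc z ρ x t i := by
  classical
  have h1 : ∃ t, 16 * x + RR z ρ 0 ^ 4 ≤ TT z t ^ 4 :=
    ⟨16 * x + RR z ρ 0 ^ 4, (le_TT z _).trans (Nat.le_self_pow (by norm_num) _)⟩
  obtain ⟨t, ht, htm⟩ : ∃ t, 16 * x + RR z ρ 0 ^ 4 ≤ TT z t ^ 4 ∧
      ∀ s, s < t → TT z s ^ 4 < 16 * x + RR z ρ 0 ^ 4 :=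
    ⟨Nat.find h1, Nat.find_spec h1, fun s hs => not_le.1 (Nat.find_min h1 hs)⟩
  have h2 : ∃ i, TT z t ^ 4 < 16 * x + RR z ρ (i + 1) ^ 4 := by
    refine ⟨TT z t ^ 4, ?_⟩
    have h3 := (le_RR z ρ (TT z t ^ 4 + 1)).trans
      (Nat.le_self_pow (by norm_num : (4 : ℕ) ≠ 0) _)
    omega
  obtain ⟨i, hi, him⟩ : ∃ i, TT z t ^ 4 < 16 * x + RR z ρ (i + 1) ^ 4 ∧
      ∀ j, j < i → 16 * x + RR z ρ (j + 1) ^ 4 ≤ TT z t ^ 4 :=
    ⟨Nat.find h2, Nat.find_spec h2, fun s hs => not_lt.1 (Nat.find_min h2 hs)⟩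
  refine ⟨t, i, ?_, hi, fun s hs => htm s (by omega)⟩
  rcases Nat.eq_zero_or_pos i with h0 | h0
  · subst h0; exact ht
  · have := him (i - 1) (by omega)
    rwa [Nat.sub_add_cancel h0] at this

/-- the conditions on the scale -/
structure Big (z ρ y : ℕ) : Prop where
  ten : 10 ≤ y
  five : 5 * VV z ≤ y
  m : (mm z) ^ 16 ≤ y
  c : ρ * (mm z) ^ 16 + 64 ≤ y

lemma RR0 (z ρ : ℕ) : RR z ρ 0 = ρ * (mm z) ^ 16 + 64 := by unfold RR; simp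

lemma TT0 (z : ℕ) : TT z 0 = (mm z) ^ 16 := by unfold TT; simp

lemma TT_succ (z s : ℕ) : TT z (s + 1) = TT z s + WW z := by unfold TT; ring

lemma RR_succ (z ρ s : ℕ) : RR z ρ (s + 1) = RR z ρ s + WW z := by unfold RR; ring

lemma pow16 {y : ℕ} (hy : 10 ≤ y) : (y + 1) ^ 16 * 10 ≤ 46 * y ^ 16 := by
  have h1 : 10 * (y + 1) ≤ 11 * y := by omega
  have h2 := Nat.pow_le_pow_left h1 16
  rw [mul_pow, mul_pow] at h2
  have h3 : (11 : ℕ) ^ 16 * 10 ≤ 46 * 10 ^ 16 := by norm_num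
  have h4 : 10 ^ 16 * ((y + 1) ^ 16 * 10) ≤ 10 ^ 16 * (46 * y ^ 16) := by
    calc 10 ^ 16 * ((y + 1) ^ 16 * 10) = (10 ^ 16 * (y + 1) ^ 16) * 10 := by ring
      _ ≤ (11 ^ 16 * y ^ 16) * 10 := Nat.mul_le_mul_right _ h2
      _ = (11 ^ 16 * 10) * y ^ 16 := by ring
      _ ≤ (46 * 10 ^ 16) * y ^ 16 := Nat.mul_le_mul_right _ h3
      _ = 10 ^ 16 * (46 * y ^ 16) := by ring
  exact Nat.le_of_mul_le_mul_left h4 (by positivity)

lemma T_lt {z ρ y x s : ℕ} (hB : Big z ρ y) (hx : x < (y + 1) ^ 16)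
    (h : TT z s ^ 4 < 16 * x + RR z ρ 0 ^ 4) : TT z s < 3 * y ^ 4 := by
  have h1 := pow16 hB.ten
  have h2 : RR z ρ 0 ^ 4 ≤ y ^ 4 := by
    rw [RR0]; exact Nat.pow_le_pow_left hB.c 4
  have hy12 : 10 ^ 12 ≤ y ^ 12 := Nat.pow_le_pow_left hB.ten 12
  have h3 : y ^ 4 * 10 ^ 12 ≤ y ^ 16 := by
    calc y ^ 4 * 10 ^ 12 ≤ y ^ 4 * y ^ 12 := Nat.mul_le_mul_left _ hy12
      _ = y ^ 16 := by ring
  have h5 : TT z s ^ 4 < (3 * y ^ 4) ^ 4 := by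
    have e : (3 * y ^ 4) ^ 4 = 81 * y ^ 16 := by ring
    rw [e]
    omega
  exact (Nat.pow_lt_pow_iff_left (by norm_num)).1 h5

lemma W_le {z ρ y : ℕ} (hB : Big z ρ y) : 2 * WW z ≤ y ^ 4 := by
  have h1 := Nat.pow_le_pow_left hB.five 4
  have e : (5 * VV z) ^ 4 = 625 * WW z := by unfold WW; ring
  rw [e] at h1
  omega

lemma r_le {z ρ y x t i : ℕ} (hB : Big z ρ y) (hx : x < (y + 1) ^ 16)
    (h : Loc z ρ x t i) : RR z ρ i ≤ 4 * VV z * y ^ 3 := by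
  have hV := VV_pos z
  have hy := hB.ten
  have hgoal : RR z ρ i ^ 4 ≤ (4 * VV z * y ^ 3) ^ 4 := by
    have e : (4 * VV z * y ^ 3) ^ 4 = 256 * (WW z * y ^ 12) := by unfold WW; ring
    rw [e]
    obtain ⟨h1, h2, h3⟩ := h
    have hW1 := WW_pos z
    have hc : RR z ρ 0 ^ 4 ≤ WW z * y ^ 12 := by
      calc RR z ρ 0 ^ 4 ≤ y ^ 4 := by rw [RR0]; exact Nat.pow_le_pow_left hB.c 4
        _ ≤ y ^ 12 := Nat.pow_le_pow_right (by omega) (by norm_num)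
        _ = 1 * y ^ 12 := by ring
        _ ≤ WW z * y ^ 12 := Nat.mul_le_mul_right _ hW1
    rcases Nat.eq_zero_or_pos t with h0 | h0
    · subst h0
      have h4 : TT z 0 ^ 4 ≤ WW z * y ^ 12 := by
        calc TT z 0 ^ 4 ≤ y ^ 4 := by rw [TT0]; exact Nat.pow_le_pow_left hB.m 4
          _ ≤ y ^ 12 := Nat.pow_le_pow_right (by omega) (by norm_num)
          _ = 1 * y ^ 12 := by ring
          _ ≤ WW z * y ^ 12 := Nat.mul_le_mul_right _ hW1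
      omega
    · obtain ⟨s, rfl⟩ : ∃ s, t = s + 1 := ⟨t - 1, by omega⟩
      have h4 := h3 s rfl
      have h5 := T_lt hB hx h4
      have h6 := W_le hB
      have h7 : TT z (s + 1) ^ 4 ≤ TT z s ^ 4 + 4 * WW z * TT z (s + 1) ^ 3 := by
        rw [TT_succ]
        set A := TT z s
        set W := WW z
        nlinarith [Nat.zero_le (A ^ 2 * W ^ 2), Nat.zero_le (A * W ^ 3), Nat.zero_le (W ^ 4),
          Nat.zero_le (A ^ 3 * W)]
      have h8 : 2 * TT z (s + 1) ≤ 7 * y ^ 4 := by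
        rw [TT_succ]; omega
      have h9 := Nat.pow_le_pow_left h8 3
      have e1 : (2 * TT z (s + 1)) ^ 3 = 8 * TT z (s + 1) ^ 3 := by ring
      have e2 : (7 * y ^ 4) ^ 3 = 343 * y ^ 12 := by ring
      rw [e1, e2] at h9
      have h10 : WW z * (8 * TT z (s + 1) ^ 3) ≤ WW z * (343 * y ^ 12) := Nat.mul_le_mul_left _ h9
      have e3 : WW z * (8 * TT z (s + 1) ^ 3) = 2 * (4 * WW z * TT z (s + 1) ^ 3) := by ring
      have e4 : WW z * (343 * y ^ 12) = 343 * (WW z * y ^ 12) := by ring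
      rw [e3, e4] at h10
      omega
  exact (Nat.pow_le_pow_iff_left (by norm_num)).1 hgoal

lemma gap {z ρ y x t i : ℕ} (hB : Big z ρ y) (hx : x < (y + 1) ^ 16)
    (h : Loc z ρ x t i) : RR z ρ (i + 1) ^ 4 ≤ RR z ρ i ^ 4 + 500 * ((VV z) ^ 7 * y ^ 9) := by
  have h1 := r_le hB hx h
  have hV := VV_pos z
  have h2 : WW z ≤ VV z * y ^ 3 := by
    have h3 : VV z ≤ y := by have := hB.five; omega
    calc WW z = VV z * VV z ^ 3 := by unfold WW; ring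
      _ ≤ VV z * y ^ 3 := Nat.mul_le_mul_left _ (Nat.pow_le_pow_left h3 3)
  have h4 : RR z ρ (i + 1) ≤ 5 * (VV z * y ^ 3) := by
    rw [RR_succ]
    have e : 4 * VV z * y ^ 3 = 4 * (VV z * y ^ 3) := by ring
    rw [e] at h1
    omega
  have h5 : RR z ρ (i + 1) ^ 4 ≤ RR z ρ i ^ 4 + 4 * WW z * RR z ρ (i + 1) ^ 3 := by
    rw [RR_succ]
    set A := RR z ρ i
    set W := WW z
    nlinarith [Nat.zero_le (A ^ 2 * W ^ 2), Nat.zero_le (A * W ^ 3), Nat.zero_le (W ^ 4),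
      Nat.zero_le (A ^ 3 * W)]
  have h6 := Nat.pow_le_pow_left h4 3
  have h7 : 4 * WW z * RR z ρ (i + 1) ^ 3 ≤ 4 * WW z * (5 * (VV z * y ^ 3)) ^ 3 :=
    Nat.mul_le_mul_left _ h6
  have e : 4 * WW z * (5 * (VV z * y ^ 3)) ^ 3 = 500 * ((VV z) ^ 7 * y ^ 9) := by
    unfold WW; ring
  rw [e] at h7
  omega

/-- the ranges of `t` and `i` -/
def HH (z y : ℕ) : ℕ := 3 * y ^ 4 / WW z + 2

def JJ (z y : ℕ) : ℕ := 4 * y ^ 3 / VV z ^ 3 + 2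

lemma t_lt {z ρ y x t i : ℕ} (hB : Big z ρ y) (hx : x < (y + 1) ^ 16)
    (h : Loc z ρ x t i) : t < HH z y := by
  unfold HH
  rcases Nat.eq_zero_or_pos t with h0 | h0
  · rw [h0]; exact Nat.succ_pos _
  · obtain ⟨s, rfl⟩ : ∃ s, t = s + 1 := ⟨t - 1, by omega⟩
    have h5 := T_lt hB hx (h.2.2 s rfl)
    have h6 : s * WW z ≤ 3 * y ^ 4 := by
      unfold TT at h5
      rw [mul_comm s (WW z)]
      omega
    have h7 := (Nat.le_div_iff_mul_le (WW_pos z)).2 h6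
    generalize 3 * y ^ 4 / WW z = q at h7 ⊢
    omega

lemma i_lt {z ρ y x t i : ℕ} (hB : Big z ρ y) (hx : x < (y + 1) ^ 16)
    (h : Loc z ρ x t i) : i < JJ z y := by
  unfold JJ
  have h1 := r_le hB hx h
  have hV := VV_pos z
  have h2 : VV z * (i * VV z ^ 3) ≤ VV z * (4 * y ^ 3) := by
    have h3 : WW z * i ≤ RR z ρ i := by unfold RR; omega
    calc VV z * (i * VV z ^ 3) = WW z * i := by unfold WW; ring
      _ ≤ 4 * VV z * y ^ 3 := h3.trans h1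
      _ = VV z * (4 * y ^ 3) := by ring
  have h4 := Nat.le_of_mul_le_mul_left h2 hV
  have h7 := (Nat.le_div_iff_mul_le (pow_pos hV 3)).2 h4
  generalize 4 * y ^ 3 / VV z ^ 3 = q at h7 ⊢
  omega

lemma HH_le {z ρ y : ℕ} (hB : Big z ρ y) : HH z y * WW z ≤ 4 * y ^ 4 := by
  unfold HH
  have h1 := W_le hB
  have h2 := Nat.div_mul_le_self (3 * y ^ 4) (WW z)
  rw [Nat.add_mul]
  omega

lemma JJ_le {z ρ y : ℕ} (hB : Big z ρ y) : JJ z y * VV z ^ 3 ≤ 5 * y ^ 3 := by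
  unfold JJ
  have h1 := Nat.pow_le_pow_left hB.five 3
  have e : (5 * VV z) ^ 3 = 125 * VV z ^ 3 := by ring
  rw [e] at h1
  have h2 := Nat.div_mul_le_self (4 * y ^ 3) (VV z ^ 3)
  rw [Nat.add_mul]
  omega

lemma JJ_le_HH {z ρ y : ℕ} (hB : Big z ρ y) : JJ z y ≤ HH z y := by
  have h1 := JJ_le hB
  have hW := WW_pos z
  have h2 : 3 * y ^ 4 < HH z y * WW z := by
    unfold HH
    have := Nat.lt_div_mul_add (a := 3 * y ^ 4) hW
    rw [Nat.add_mul]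
    omega
  have h3 : JJ z y * WW z ≤ y ^ 4 := by
    calc JJ z y * WW z = VV z * (JJ z y * VV z ^ 3) := by unfold WW; ring
      _ ≤ VV z * (5 * y ^ 3) := Nat.mul_le_mul_left _ h1
      _ = (5 * VV z) * y ^ 3 := by ring
      _ ≤ y * y ^ 3 := Nat.mul_le_mul_right _ hB.five
      _ = y ^ 4 := by ring
  have h4 : JJ z y * WW z ≤ HH z y * WW z := by omega
  exact Nat.le_of_mul_le_mul_right h4 hW

lemma le_JJ {z y N : ℕ} (hN : N * VV z ^ 3 ≤ y) (hy : 1 ≤ y) : N ≤ JJ z y := by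
  unfold JJ
  have h1 : N * VV z ^ 3 ≤ 4 * y ^ 3 := by
    have : y ≤ y ^ 3 := Nat.le_self_pow (by norm_num) y
    omega
  have h7 := (Nat.le_div_iff_mul_le (pow_pos (VV_pos z) 3)).2 h1
  generalize 4 * y ^ 3 / VV z ^ 3 = q at h7 ⊢
  omega

end Pool.Agent.N737.AI
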