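import Pool.Agent.N737.AI.Loc

set_option autoImplicit false

namespace Pool.Agent.N737.AI

open Finset Filter
open Pool.Agent.N737.BC (BadP area)

/-- area of a right triangle with rational sides -/
def Cong (n : ℕ) : Prop :=
  ∃ a b c : ℚ, 0 < a ∧ 0 < b ∧ 0 < c ∧ a ^ 2 + b ^ 2 = c ^ 2 ∧ (n : ℚ) = a * b / 2

open Classical in
lemma found {z ρ a y x t i : ℕ} (hz : 9 ≤ z) (ha : (16 * a + ρ ^ 4) % 256 = 1) (ha4 : a % 4 ≠ 0)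
    (hB : Big z ρ y) (hx1 : 1 ≤ x) (hx : x < (y + 1) ^ 16) (h : Loc z ρ x t i)
    (hnb : (t, i) ∉ Bad z ρ (HH z y) (JJ z y)) :
    ∃ n, x ≤ n ∧ n ≤ x + 32 * ((VV z) ^ 7 * y ^ 9) ∧ n % 16 = a % 16 ∧ Squarefree n ∧ Cong n := by
  have h1 := h.1
  have h2 := h.2.1
  have h3 := gap hB hx h
  have hlt : RR z ρ i < TT z t := by
    apply (Nat.pow_lt_pow_iff_left (show (4 : ℕ) ≠ 0 by norm_num)).1
    omega
  obtain ⟨n, hn, hna⟩ := ex_n (z := z) (t := t) (i := i) ha hlt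
  refine ⟨n, by omega, by omega, hna, ?_, ?_⟩
  · apply sqf hz hn (by omega)
    · intro p hp hp2 hpz
      exact small_dvd hp hp2 hpz
    · intro p hp hpz hb
      apply hnb
      unfold Bad
      rw [mem_filter, mem_product, mem_range, mem_range]
      exact ⟨⟨t_lt hB hx h, i_lt hB hx h⟩, hlt, p, hp, hpz, hb⟩
  · exact area (RR_pos z ρ i) hlt hn

open Classical in
lemma count {z ρ a y X : ℕ} (hz : 9 ≤ z) (ha : (16 * a + ρ ^ 4) % 256 = 1) (ha4 : a % 4 ≠ 0)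
    (hB : Big z ρ y) (hX : X < (y + 1) ^ 16) :
    ((Icc 1 X).filter (fun x => ¬ ∃ n, x ≤ n ∧ n ≤ x + 32 * ((VV z) ^ 7 * y ^ 9) ∧
      n % 16 = a % 16 ∧ Squarefree n ∧ Cong n)).card ≤
      32 * ((VV z) ^ 7 * y ^ 9) * (Bad z ρ (HH z y) (JJ z y)).card := by
  set S := (Icc 1 X).filter (fun x => ¬ ∃ n, x ≤ n ∧ n ≤ x + 32 * ((VV z) ^ 7 * y ^ 9) ∧
      n % 16 = a % 16 ∧ Squarefree n ∧ Cong n) with hS
  choose f g hfg using locate z ρ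
  have hin : ∀ x ∈ S, (f x, g x) ∈ Bad z ρ (HH z y) (JJ z y) := by
    intro x hx
    obtain ⟨h1, h2⟩ := mem_filter.1 hx
    rw [mem_Icc] at h1
    by_contra hcon
    exact h2 (found hz ha ha4 hB h1.1 (lt_of_le_of_lt h1.2 hX) (hfg x) hcon)
  have hsub : S.image (fun x => (f x, g x)) ⊆ Bad z ρ (HH z y) (JJ z y) := by
    intro q hq
    obtain ⟨x, hx, rfl⟩ := mem_image.1 hq
    exact hin x hx
  have hQ : 4 ≤ (VV z) ^ 7 * y ^ 9 := by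
    have h1 : 4 ≤ VV z := by unfold VV; have := mm_pos z; omega
    have h2 : VV z ≤ VV z ^ 7 := Nat.le_self_pow (by norm_num) _
    have h3 : 1 ≤ y ^ 9 := Nat.one_le_pow _ _ (by have := hB.ten; omega)
    calc 4 ≤ VV z ^ 7 * 1 := by omega
      _ ≤ _ := Nat.mul_le_mul_left _ h3
  have hfib : ∀ q ∈ S.image (fun x => (f x, g x)),
      (S.filter (fun x => (f x, g x) = q)).card ≤ 32 * ((VV z) ^ 7 * y ^ 9) := by
    intro q hq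
    obtain ⟨x₀, hx₀, rfl⟩ := mem_image.1 hq
    have hx₀' := mem_Icc.1 (mem_filter.1 hx₀).1
    have hgap := gap hB (lt_of_le_of_lt hx₀'.2 hX) (hfg x₀)
    set A := TT z (f x₀) ^ 4 with hA
    set r4 := RR z ρ (g x₀) ^ 4 with hr4
    set Q := (VV z) ^ 7 * y ^ 9 with hQdef
    have hsub2 : S.filter (fun x => (f x, g x) = (f x₀, g x₀)) ⊆
        Icc ((A - r4 - 500 * Q) / 16) ((A - r4) / 16) := by
      intro x hx
      obtain ⟨h1, h2⟩ := mem_filter.1 hx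
      have h3 : f x = f x₀ := congrArg Prod.fst h2
      have h4 : g x = g x₀ := congrArg Prod.snd h2
      have h5 := hfg x
      rw [h3, h4] at h5
      have h6 := h5.1
      have h7 := h5.2.1
      rw [mem_Icc]
      omega
    refine (card_le_card hsub2).trans ?_
    rw [Nat.card_Icc]
    omega
  calc S.card ≤ 32 * ((VV z) ^ 7 * y ^ 9) * (S.image (fun x => (f x, g x))).card :=
        card_le_mul_card_image S _ hfib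
    _ ≤ _ := Nat.mul_le_mul_left _ (card_le_card hsub)

lemma total' (z ρ : ℕ) (hz : 9 ≤ z) :
    ∃ Y₀ : ℕ, ∀ y : ℕ, Y₀ ≤ y → Big z ρ y ∧
      32 * ((VV z : ℝ) ^ 7 * (y : ℝ) ^ 9) * ((Bad z ρ (HH z y) (JJ z y)).card : ℝ) ≤
        3840 / z * (y : ℝ) ^ 16 := by
  have hz0 : (0 : ℝ) < z := by exact_mod_cast (by omega : 0 < z)
  obtain ⟨N₀, hN⟩ := total z ρ hz (1 / z) (by positivity)
  refine ⟨10 + 5 * VV z + (mm z) ^ 16 + (ρ * (mm z) ^ 16 + 64) + N₀ * VV z ^ 3, fun y hy => ?_⟩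
  have hB : Big z ρ y := ⟨by omega, by omega, by omega, by omega⟩
  refine ⟨hB, ?_⟩
  have h1 := hN (HH z y) (JJ z y) (le_JJ (by omega) (by omega)) (JJ_le_HH hB)
  have h2 : (HH z y : ℝ) * (VV z : ℝ) ^ 4 ≤ 4 * (y : ℝ) ^ 4 := by
    have := HH_le hB
    unfold WW at this
    exact_mod_cast this
  have h3 : (JJ z y : ℝ) * (VV z : ℝ) ^ 3 ≤ 5 * (y : ℝ) ^ 3 := by
    exact_mod_cast JJ_le hB
  have h4 : ((HH z y : ℝ) * (VV z : ℝ) ^ 4) * ((JJ z y : ℝ) * (VV z : ℝ) ^ 3) ≤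
      (4 * (y : ℝ) ^ 4) * (5 * (y : ℝ) ^ 3) :=
    mul_le_mul h2 h3 (by positivity) (by positivity)
  have e1 : (5 / (z : ℝ) + 1 / z) = 6 / z := by ring
  rw [e1] at h1
  calc 32 * ((VV z : ℝ) ^ 7 * (y : ℝ) ^ 9) * ((Bad z ρ (HH z y) (JJ z y)).card : ℝ)
      ≤ 32 * ((VV z : ℝ) ^ 7 * (y : ℝ) ^ 9) * (6 / z * ((HH z y : ℝ) * JJ z y)) :=
        mul_le_mul_of_nonneg_left h1 (by positivity)
    _ = (192 / z * (y : ℝ) ^ 9) *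
        (((HH z y : ℝ) * (VV z : ℝ) ^ 4) * ((JJ z y : ℝ) * (VV z : ℝ) ^ 3)) := by ring
    _ ≤ (192 / z * (y : ℝ) ^ 9) * ((4 * (y : ℝ) ^ 4) * (5 * (y : ℝ) ^ 3)) :=
        mul_le_mul_of_nonneg_left h4 (by positivity)
    _ = 3840 / z * (y : ℝ) ^ 16 := by ring

open Classical in
theorem main1 (a ρ : ℕ) (ha : (16 * a + ρ ^ 4) % 256 = 1) (ha4 : a % 4 ≠ 0) (ε : ℝ) (hε : 0 < ε) :
    ∃ C : ℝ, 0 < C ∧ ∃ X₀ : ℕ, ∀ X : ℕ, X₀ ≤ X →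
      (((Icc 1 X).filter (fun x : ℕ => ¬ ∃ n : ℕ, x ≤ n ∧
        (n : ℝ) ≤ x + C * (X : ℝ) ^ (9 / 16 : ℝ) ∧ n % 16 = a % 16 ∧ Squarefree n ∧
          Cong n)).card : ℝ) ≤ ε * X := by
  obtain ⟨z, hz9, hzε⟩ : ∃ z : ℕ, 9 ≤ z ∧ 3840 / (z : ℝ) ≤ ε := by
    obtain ⟨z0, hz0⟩ := exists_nat_ge (3840 / ε)
    refine ⟨z0 + 9, by omega, ?_⟩
    have hzr : (0 : ℝ) < ((z0 + 9 : ℕ) : ℝ) := by exact_mod_cast (by omega : 0 < z0 + 9)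
    rw [div_le_iff₀ hzr]
    rw [div_le_iff₀ hε] at hz0
    push_cast
    nlinarith
  have hzr : (0 : ℝ) < z := by exact_mod_cast (by omega : 0 < z)
  obtain ⟨Y₀, hY⟩ := total' z ρ hz9
  refine ⟨32 * (VV z : ℝ) ^ 7, by have := VV_pos z; positivity, (Y₀ + 1) ^ 16, fun X hX => ?_⟩
  obtain ⟨y, hy1, hy2⟩ : ∃ y : ℕ, y ^ 16 ≤ X ∧ X < (y + 1) ^ 16 := by
    have hex : ∃ y : ℕ, X < (y + 1) ^ 16 :=
      ⟨X, lt_of_lt_of_le (Nat.lt_succ_self X) (Nat.le_self_pow (by norm_num) _)⟩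
    refine ⟨Nat.find hex, ?_, Nat.find_spec hex⟩
    rcases Nat.eq_zero_or_pos (Nat.find hex) with h0 | h0
    · rw [h0]; simp
    · have := Nat.find_min hex (m := Nat.find hex - 1) (by omega)
      rw [Nat.sub_add_cancel h0] at this
      exact not_lt.1 this
  have hYy : Y₀ ≤ y := by
    by_contra hcon
    have h1 : (y + 1) ^ 16 ≤ (Y₀ + 1) ^ 16 := Nat.pow_le_pow_left (by omega) 16
    omega
  obtain ⟨hB, hT⟩ := hY y hYy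
  have h1 := count hz9 ha ha4 hB hy2
  have hXr : (y : ℝ) ^ 16 ≤ X := by exact_mod_cast hy1
  have h9 : (y : ℝ) ^ 9 ≤ (X : ℝ) ^ (9 / 16 : ℝ) := by
    have h2 : ((y : ℝ) ^ 16) ^ (9 / 16 : ℝ) ≤ (X : ℝ) ^ (9 / 16 : ℝ) :=
      Real.rpow_le_rpow (pow_nonneg (Nat.cast_nonneg y) 16) hXr (by norm_num)
    have h3 : ((y : ℝ) ^ 16) ^ (9 / 16 : ℝ) = (y : ℝ) ^ 9 := by
      rw [← Real.rpow_natCast, ← Real.rpow_mul (Nat.cast_nonneg y), ← Real.rpow_natCast]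
      norm_num
    rwa [h3] at h2
  have hsub : (Icc 1 X).filter (fun x : ℕ => ¬ ∃ n : ℕ, x ≤ n ∧
        (n : ℝ) ≤ x + 32 * (VV z : ℝ) ^ 7 * (X : ℝ) ^ (9 / 16 : ℝ) ∧ n % 16 = a % 16 ∧
          Squarefree n ∧ Cong n) ⊆
      (Icc 1 X).filter (fun x => ¬ ∃ n, x ≤ n ∧ n ≤ x + 32 * ((VV z) ^ 7 * y ^ 9) ∧
      n % 16 = a % 16 ∧ Squarefree n ∧ Cong n) := by
    intro x hx
    obtain ⟨hx1, hx2⟩ := mem_filter.1 hx
    refine mem_filter.2 ⟨hx1, ?_⟩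
    rintro ⟨n, hn1, hn2, hn3⟩
    refine hx2 ⟨n, hn1, ?_, hn3⟩
    have h4 : (n : ℝ) ≤ x + 32 * (VV z : ℝ) ^ 7 * (y : ℝ) ^ 9 := by
      have h40 : n ≤ x + 32 * (VV z) ^ 7 * y ^ 9 := by
        rw [mul_assoc]; exact hn2
      exact_mod_cast h40
    have h50 : (0 : ℝ) ≤ 32 * (VV z : ℝ) ^ 7 :=
      mul_nonneg (by norm_num) (pow_nonneg (Nat.cast_nonneg _) _)
    generalize (32 : ℝ) * (VV z : ℝ) ^ 7 = c at h50 h4 ⊢
    have h51 : c * (y : ℝ) ^ 9 ≤ c * (X : ℝ) ^ (9 / 16 : ℝ) := mul_le_mul_of_nonneg_left h9 h50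
    linarith
  have h6 := (card_le_card hsub).trans h1
  have h7 : ((32 * ((VV z) ^ 7 * y ^ 9) * (Bad z ρ (HH z y) (JJ z y)).card : ℕ) : ℝ) ≤
      3840 / z * (y : ℝ) ^ 16 := by
    push_cast
    exact hT
  have h8 : 3840 / (z : ℝ) * (y : ℝ) ^ 16 ≤ ε * X :=
    mul_le_mul hzε hXr (pow_nonneg (Nat.cast_nonneg y) 16) hε.le
  exact (Nat.cast_le.2 h6).trans (h7.trans h8)

lemma exists_rho (a : ℕ) : ∃ ρ : ℕ, (16 * a + ρ ^ 4) % 256 = 1 := by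
  have h : ∀ b : ℕ, b < 16 → ∃ ρ : ℕ, (16 * b + ρ ^ 4) % 256 = 1 := by
    intro b hb
    interval_cases b
    exacts [⟨1, by norm_num⟩, ⟨27, by norm_num⟩, ⟨25, by norm_num⟩, ⟨29, by norm_num⟩,
      ⟨15, by norm_num⟩, ⟨21, by norm_num⟩, ⟨9, by norm_num⟩, ⟨13, by norm_num⟩,
      ⟨31, by norm_num⟩, ⟨5, by norm_num⟩, ⟨7, by norm_num⟩, ⟨3, by norm_num⟩,
      ⟨17, by norm_num⟩, ⟨11, by norm_num⟩, ⟨23, by norm_num⟩, ⟨19, by norm_num⟩]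
  obtain ⟨ρ, hρ⟩ := h (a % 16) (Nat.mod_lt _ (by norm_num))
  refine ⟨ρ, ?_⟩
  omega

open Classical in
/-- all classes modulo `16` which contain squarefree numbers, at the same time -/
theorem main (ε : ℝ) (hε : 0 < ε) :
    ∃ C : ℝ, 0 < C ∧ ∃ X₀ : ℕ, ∀ X : ℕ, X₀ ≤ X →
      (((Icc 1 X).filter (fun x : ℕ => ¬ ∀ r : ℕ, r < 16 → r % 4 ≠ 0 → ∃ n : ℕ, x ≤ n ∧
        (n : ℝ) ≤ x + C * (X : ℝ) ^ (9 / 16 : ℝ) ∧ n % 16 = r ∧ Squarefree n ∧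
          Cong n)).card : ℝ) ≤ ε * X := by
  have h : ∀ r : ℕ, ∃ C : ℝ, 0 < C ∧ ∃ X₀ : ℕ, ∀ X : ℕ, X₀ ≤ X → r % 4 ≠ 0 →
      (((Icc 1 X).filter (fun x : ℕ => ¬ ∃ n : ℕ, x ≤ n ∧
        (n : ℝ) ≤ x + C * (X : ℝ) ^ (9 / 16 : ℝ) ∧ n % 16 = r % 16 ∧ Squarefree n ∧
          Cong n)).card : ℝ) ≤ ε / 16 * X := by
    intro r
    obtain ⟨ρ, hρ⟩ := exists_rho r
    by_cases h4 : r % 4 = 0
    · exact ⟨1, one_pos, 0, fun X _ h => absurd h4 h⟩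
    · obtain ⟨C, hC, X₀, h⟩ := main1 r ρ hρ h4 (ε / 16) (by positivity)
      exact ⟨C, hC, X₀, fun X hX _ => h X hX⟩
  choose C hC X₀ hX₀ using h
  refine ⟨∑ r ∈ range 16, C r, sum_pos (fun r _ => hC r) ⟨0, by simp⟩, ∑ r ∈ range 16, X₀ r,
    fun X hX => ?_⟩
  have hsub : (Icc 1 X).filter (fun x : ℕ => ¬ ∀ r : ℕ, r < 16 → r % 4 ≠ 0 → ∃ n : ℕ, x ≤ n ∧
        (n : ℝ) ≤ x + (∑ r ∈ range 16, C r) * (X : ℝ) ^ (9 / 16 : ℝ) ∧ n % 16 = r ∧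
          Squarefree n ∧ Cong n) ⊆
      ((range 16).filter (fun r => r % 4 ≠ 0)).biUnion (fun r =>
        (Icc 1 X).filter (fun x : ℕ => ¬ ∃ n : ℕ, x ≤ n ∧
        (n : ℝ) ≤ x + C r * (X : ℝ) ^ (9 / 16 : ℝ) ∧ n % 16 = r % 16 ∧ Squarefree n ∧
          Cong n)) := by
    intro x hx
    obtain ⟨hx1, hx2⟩ := mem_filter.1 hx
    push Not at hx2
    obtain ⟨r, hr, hr4, hr2⟩ := hx2
    rw [mem_biUnion]
    refine ⟨r, mem_filter.2 ⟨mem_range.2 hr, hr4⟩, mem_filter.2 ⟨hx1, ?_⟩⟩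
    rintro ⟨n, h1, h2, h3, h4, h5⟩
    refine hr2 n h1 ?_ (by omega) h4 h5
    have h6 : C r ≤ ∑ r ∈ range 16, C r :=
      single_le_sum (f := C) (fun i _ => (hC i).le) (mem_range.2 hr)
    have h7 : C r * (X : ℝ) ^ (9 / 16 : ℝ) ≤ (∑ r ∈ range 16, C r) * (X : ℝ) ^ (9 / 16 : ℝ) :=
      mul_le_mul_of_nonneg_right h6 (by positivity)
    linarith
  have h1 := (card_le_card hsub).trans card_biUnion_le
  have h2 : (((Icc 1 X).filter (fun x : ℕ => ¬ ∀ r : ℕ, r < 16 → r % 4 ≠ 0 → ∃ n : ℕ, x ≤ n ∧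
        (n : ℝ) ≤ x + (∑ r ∈ range 16, C r) * (X : ℝ) ^ (9 / 16 : ℝ) ∧ n % 16 = r ∧
          Squarefree n ∧ Cong n)).card : ℝ) ≤
      ∑ r ∈ (range 16).filter (fun r => r % 4 ≠ 0), (((Icc 1 X).filter (fun x : ℕ =>
        ¬ ∃ n : ℕ, x ≤ n ∧
        (n : ℝ) ≤ x + C r * (X : ℝ) ^ (9 / 16 : ℝ) ∧ n % 16 = r % 16 ∧ Squarefree n ∧
          Cong n)).card : ℝ) := by
    exact_mod_cast h1
  refine h2.trans ?_
  have h3 : ∑ r ∈ (range 16).filter (fun r => r % 4 ≠ 0), (((Icc 1 X).filter (fun x : ℕ =>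
        ¬ ∃ n : ℕ, x ≤ n ∧
        (n : ℝ) ≤ x + C r * (X : ℝ) ^ (9 / 16 : ℝ) ∧ n % 16 = r % 16 ∧ Squarefree n ∧
          Cong n)).card : ℝ) ≤ ∑ r ∈ (range 16).filter (fun r => r % 4 ≠ 0), ε / 16 * X := by
    apply sum_le_sum
    intro r hr
    obtain ⟨hr1, hr2⟩ := mem_filter.1 hr
    apply hX₀ r X _ hr2
    exact (single_le_sum (f := X₀) (fun i _ => Nat.zero_le _) hr1).trans hX
  refine h3.trans ?_
  rw [sum_const, nsmul_eq_mul]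
  have h4 : ((((range 16).filter (fun r => r % 4 ≠ 0)).card : ℕ) : ℝ) = 12 := by
    have : ((range 16).filter (fun r => r % 4 ≠ 0)).card = 12 := by decide
    rw [this]; norm_num
  rw [h4]
  have : 0 ≤ ε * X := by positivity
  nlinarith

end Pool.Agent.N737.AI
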