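import Pool.Agent.N737.AI.Main

set_option autoImplicit false

namespace Pool.Agent.N737.AI

open Finset Filter
open Pool.Agent.N737.BC (BadP area)

section walk

variable (b : ℕ → Prop) [DecidablePred b]

/-- the reflected walk: one step up at the members of `b`, one step down otherwise -/
def Phi : ℕ → ℕ
  | 0 => 0
  | i + 1 => if b i then Phi i + 1 else Phi i - 1

lemma phi_win (m n : ℕ) : 2 * ((Ico m (m + n)).filter b).card ≤ Phi b (m + n) + n := by
  induction n with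
  | zero => simp
  | succ n ih =>
    rw [← add_assoc, ← Finset.insert_Ico_right_eq_Ico_add_one (by omega), filter_insert]
    by_cases h : b (m + n)
    · rw [if_pos h, card_insert_of_notMem (by simp), Phi, if_pos h]
      omega
    · rw [if_neg h, Phi, if_neg h]
      omega

lemma phi_cnt (J : ℕ) : ((range J).filter (fun i => 1 ≤ Phi b (i + 1))).card + Phi b J ≤
    2 * ((range J).filter b).card := by
  induction J with
  | zero =>
    rw [range_zero, filter_empty, filter_empty, card_empty, Phi]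
  | succ n ih =>
    rw [range_add_one, filter_insert, filter_insert]
    have h1 : n ∉ (range n).filter (fun i => 1 ≤ Phi b (i + 1)) := by simp
    have h2 : n ∉ (range n).filter b := by simp
    by_cases h : b n
    · have e : Phi b (n + 1) = Phi b n + 1 := by rw [Phi, if_pos h]
      rw [if_pos (by rw [e]; omega), if_pos h, card_insert_of_notMem h1, card_insert_of_notMem h2, e]
      omega
    · have e : Phi b (n + 1) = Phi b n - 1 := by rw [Phi, if_neg h]
      rw [if_neg h, e]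
      split_ifs with h3
      · rw [card_insert_of_notMem h1]
        omega
      · omega

end walk

open Classical in
/-- the pairs for which some window ending there contains too many bad pairs -/
noncomputable def Bad2 (z ρ H J : ℕ) : Finset (ℕ × ℕ) :=
  ((range H) ×ˢ (range J)).filter (fun q => ∃ K : ℕ, 1 ≤ K ∧ 2 * K ≤ q.2 + 1 ∧
    K < ((Ico (q.2 + 1 - 2 * K) (q.2 + 1)).filter (fun j => (q.1, j) ∈ Bad z ρ H J)).card)

open Classical in
lemma card_Bad2 (z ρ H J : ℕ) : (Bad2 z ρ H J).card ≤ 2 * (Bad z ρ H J).card := by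
  have h1 : (Bad2 z ρ H J).card = ∑ t ∈ range H, ((range J).filter (fun i => ∃ K : ℕ, 1 ≤ K ∧
      2 * K ≤ i + 1 ∧ K < ((Ico (i + 1 - 2 * K) (i + 1)).filter
        (fun j => (t, j) ∈ Bad z ρ H J)).card)).card := by
    unfold Bad2
    rw [card_filter, sum_product]
    exact sum_congr rfl (fun t _ => by rw [card_filter])
  have h2 : (Bad z ρ H J).card = ∑ t ∈ range H,
      ((range J).filter (fun i => (t, i) ∈ Bad z ρ H J)).card := by
    have h3 : Bad z ρ H J = ((range H) ×ˢ (range J)).filter (fun q => q ∈ Bad z ρ H J) := by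
      ext q
      rw [mem_filter]
      exact ⟨fun h => ⟨(mem_filter.1 h).1, h⟩, fun h => h.2⟩
    conv_lhs => rw [h3]
    rw [card_filter, sum_product]
    exact sum_congr rfl (fun t _ => by rw [card_filter])
  rw [h1, h2, mul_sum]
  apply sum_le_sum
  intro t _
  have h3 := phi_cnt (fun j => (t, j) ∈ Bad z ρ H J) J
  refine le_trans (card_le_card ?_) ((Nat.le_add_right _ _).trans h3)
  intro i hi
  obtain ⟨hi1, K, hK1, hK2, hK3⟩ := mem_filter.1 hi
  refine mem_filter.2 ⟨hi1, ?_⟩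
  have h4 := phi_win (fun j => (t, j) ∈ Bad z ρ H J) (i + 1 - 2 * K) (2 * K)
  rw [Nat.sub_add_cancel hK2] at h4
  omega

/-- the numbers of the class in the interval `[x, x + D]` -/
def Nums (a x D : ℕ) : Set ℕ := {n | x ≤ n ∧ n ≤ x + D ∧ n % 16 = a % 16 ∧ Squarefree n ∧ Cong n}

lemma Nums_fin (a x D : ℕ) : (Nums a x D).Finite :=
  (Set.finite_Iic (x + D)).subset fun _ h => h.2.1

lemma RR_add (z ρ i k : ℕ) : RR z ρ (i + k) = RR z ρ i + WW z * k := by unfold RR; ring

lemma gap2 {z ρ y x t i K j : ℕ} (hB : Big z ρ y) (hx : x < (y + 1) ^ 16)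
    (h : Loc z ρ x t i) (hj : j + 2 * K = i + 1) :
    RR z ρ (i + 1) ^ 4 ≤ RR z ρ j ^ 4 + 1000 * (K * ((VV z) ^ 7 * y ^ 9)) := by
  have h1 := r_le hB hx h
  have hV := VV_pos z
  have h2 : WW z ≤ VV z * y ^ 3 := by
    have h3 : VV z ≤ y := by have := hB.five; omega
    calc WW z = VV z * VV z ^ 3 := by unfold WW; ring
      _ ≤ VV z * y ^ 3 := Nat.mul_le_mul_left _ (Nat.pow_le_pow_left h3 3)
  have h4 : RR z ρ (i + 1) ≤ 5 * (VV z * y ^ 3) := by
    rw [RR_succ]
    have e : 4 * VV z * y ^ 3 = 4 * (VV z * y ^ 3) := by ring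
    rw [e] at h1
    omega
  have h5 : RR z ρ (i + 1) ^ 4 ≤ RR z ρ j ^ 4 + 4 * (WW z * (2 * K)) * RR z ρ (i + 1) ^ 3 := by
    rw [← hj, RR_add]
    set A := RR z ρ j
    set W := WW z * (2 * K)
    nlinarith [Nat.zero_le (A ^ 2 * W ^ 2), Nat.zero_le (A * W ^ 3), Nat.zero_le (W ^ 4),
      Nat.zero_le (A ^ 3 * W)]
  have h6 := Nat.pow_le_pow_left h4 3
  have h7 : 4 * (WW z * (2 * K)) * RR z ρ (i + 1) ^ 3 ≤
      4 * (WW z * (2 * K)) * (5 * (VV z * y ^ 3)) ^ 3 := Nat.mul_le_mul_left _ h6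
  have e : 4 * (WW z * (2 * K)) * (5 * (VV z * y ^ 3)) ^ 3 =
      1000 * (K * ((VV z) ^ 7 * y ^ 9)) := by
    unfold WW; ring
  rw [e] at h7
  omega

lemma RR_le {z ρ i j : ℕ} (h : i ≤ j) : RR z ρ i ≤ RR z ρ j := by
  rcases Nat.eq_or_lt_of_le h with h1 | h1
  · rw [h1]
  · exact (RR_lt h1).le

open Classical in
lemma found2 {z ρ a y x t i K : ℕ} (hz : 9 ≤ z) (ha : (16 * a + ρ ^ 4) % 256 = 1)
    (ha4 : a % 4 ≠ 0) (hB : Big z ρ y) (hx1 : 1 ≤ x) (hx : x < (y + 1) ^ 16)
    (h : Loc z ρ x t i) (hK1 : 1 ≤ K) (hK2 : 2 * K ≤ i + 1)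
    (hnb : (t, i) ∉ Bad2 z ρ (HH z y) (JJ z y)) :
    K ≤ (Nums a x (63 * (K * ((VV z) ^ 7 * y ^ 9)))).ncard := by
  have h1 := h.1
  have h2 := h.2.1
  obtain ⟨j0, hj0⟩ : ∃ j0, j0 + 2 * K = i + 1 := ⟨i + 1 - 2 * K, by omega⟩
  have h3 := gap2 hB hx h hj0
  have htH := t_lt hB hx h
  have hiJ := i_lt hB hx h
  have hlt : ∀ j, j < i + 1 → RR z ρ j < TT z t := by
    intro j hj
    have h4 : RR z ρ j ≤ RR z ρ i := RR_le (by omega)
    have h5 : RR z ρ i < TT z t := by
      apply (Nat.pow_lt_pow_iff_left (show (4 : ℕ) ≠ 0 by norm_num)).1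
      omega
    omega
  have hcard : ((Ico j0 (i + 1)).filter
      (fun j => (t, j) ∈ Bad z ρ (HH z y) (JJ z y))).card ≤ K := by
    by_contra hcon
    apply hnb
    unfold Bad2
    rw [mem_filter, mem_product, mem_range, mem_range]
    refine ⟨⟨htH, hiJ⟩, K, hK1, hK2, ?_⟩
    have e : i + 1 - 2 * K = j0 := by omega
    rw [e]
    exact not_le.1 hcon
  have hgood : K ≤ ((Ico j0 (i + 1)).filter
      (fun j => ¬ (t, j) ∈ Bad z ρ (HH z y) (JJ z y))).card := by
    have h6 := card_filter_add_card_filter_not (s := Ico j0 (i + 1))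
      (fun j => (t, j) ∈ Bad z ρ (HH z y) (JJ z y))
    rw [Nat.card_Ico] at h6
    omega
  refine hgood.trans ?_
  have hex : ∀ j, ∃ n, j < i + 1 → 16 * n + RR z ρ j ^ 4 = TT z t ^ 4 ∧ n % 16 = a % 16 := by
    intro j
    by_cases hj : j < i + 1
    · obtain ⟨n, hn, hna⟩ := ex_n (z := z) (t := t) (i := j) ha (hlt j hj)
      exact ⟨n, fun _ => ⟨hn, hna⟩⟩
    · exact ⟨0, fun h => absurd h hj⟩
  choose ν hν using hex
  rw [← Set.ncard_coe_finset]
  refine Set.ncard_le_ncard_of_injOn ν ?_ ?_ (Nums_fin _ _ _)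
  · intro j hj
    rw [mem_coe, mem_filter, mem_Ico] at hj
    obtain ⟨⟨hj1, hj2⟩, hj3⟩ := hj
    obtain ⟨hn, hna⟩ := hν j hj2
    have h4 : RR z ρ j ^ 4 ≤ RR z ρ i ^ 4 := Nat.pow_le_pow_left (RR_le (by omega)) 4
    have h5 : RR z ρ j0 ^ 4 ≤ RR z ρ j ^ 4 := Nat.pow_le_pow_left (RR_le hj1) 4
    refine ⟨by omega, by omega, hna, ?_, ?_⟩
    · apply sqf hz hn (by omega)
      · intro p hp hp2 hpz
        exact small_dvd hp hp2 hpz
      · intro p hp hpz hb
        apply hj3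
        unfold Bad
        rw [mem_filter, mem_product, mem_range, mem_range]
        exact ⟨⟨htH, by omega⟩, hlt j hj2, p, hp, hpz, hb⟩
    · exact area (RR_pos z ρ j) (hlt j hj2) hn
  · intro j hj j' hj' he
    rw [mem_coe, mem_filter, mem_Ico] at hj hj'
    have h4 := (hν j hj.1.2).1
    have h5 := (hν j' hj'.1.2).1
    have he' : ν j = ν j' := he
    rw [he'] at h4
    have h6 : RR z ρ j ^ 4 = RR z ρ j' ^ 4 := by omega
    have h7 : RR z ρ j = RR z ρ j' := Nat.pow_left_injective (by norm_num : (4 : ℕ) ≠ 0) h6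
    by_contra hne
    rcases Nat.lt_or_gt_of_ne hne with h8 | h8
    · have := RR_lt (z := z) (ρ := ρ) h8; omega
    · have := RR_lt (z := z) (ρ := ρ) h8; omega

end Pool.Agent.N737.AI
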