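import Pool.Agent.N737.AI.Multi

set_option autoImplicit false

namespace Pool.Agent.N737.AI

open Finset Filter
open Pool.Agent.N737.BC (BadP area)

lemma r_small {z ρ y K : ℕ} (hB : Big z ρ y) (hzy : z ≤ y)
    (hK : 4 * VV z ^ 3 * z * K ≤ y ^ 3) : z * RR z ρ (2 * K) ≤ VV z * y ^ 3 := by
  have hV4 : 4 ≤ VV z := by unfold VV; have := mm_pos z; omega
  have hc := hB.c
  have hy := hB.ten
  have e : 2 * (z * RR z ρ (2 * K)) = VV z * (4 * VV z ^ 3 * z * K) +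
      2 * (z * (ρ * (mm z) ^ 16 + 64)) := by
    unfold RR WW; ring
  have h1 : VV z * (4 * VV z ^ 3 * z * K) ≤ VV z * y ^ 3 := Nat.mul_le_mul_left _ hK
  have h2 : z * (ρ * (mm z) ^ 16 + 64) ≤ y * y := Nat.mul_le_mul hzy hc
  have h3 : 4 * y ^ 3 ≤ VV z * y ^ 3 := Nat.mul_le_mul_right _ hV4
  have h4 : y * y ≤ y ^ 3 := by
    calc y * y = y ^ 2 := by ring
      _ ≤ y ^ 3 := Nat.pow_le_pow_right (by omega) (by norm_num)
  omega

open Classical in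
lemma count2 {z ρ a y X : ℕ} (hz : 9 ≤ z) (ha : (16 * a + ρ ^ 4) % 256 = 1) (ha4 : a % 4 ≠ 0)
    (hB : Big z ρ y) (hzy : z ≤ y) (hX : X < (y + 1) ^ 16) :
    ((Icc 1 X).filter (fun x => ¬ ∀ K, 1 ≤ K → 4 * VV z ^ 3 * z * K ≤ y ^ 3 →
      K ≤ (Nums a x (63 * (K * ((VV z) ^ 7 * y ^ 9)))).ncard)).card ≤
      32 * ((VV z) ^ 7 * y ^ 9) * (Bad2 z ρ (HH z y) (JJ z y)).card +
        HH z y * (VV z ^ 4 * y ^ 12 / z ^ 4 / 16 + 2) := by
  set S := (Icc 1 X).filter (fun x => ¬ ∀ K, 1 ≤ K → 4 * VV z ^ 3 * z * K ≤ y ^ 3 →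
      K ≤ (Nums a x (63 * (K * ((VV z) ^ 7 * y ^ 9)))).ncard) with hS
  choose f g hfg using locate z ρ
  set S1 := S.filter (fun x => (f x, g x) ∈ Bad2 z ρ (HH z y) (JJ z y)) with hS1
  set S2 := S.filter (fun x => ¬ (f x, g x) ∈ Bad2 z ρ (HH z y) (JJ z y)) with hS2
  have hsplit : S1.card + S2.card = S.card := card_filter_add_card_filter_not _
  have hQ : 4 ≤ (VV z) ^ 7 * y ^ 9 := by
    have h1 : 4 ≤ VV z := by unfold VV; have := mm_pos z; omega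
    have h2 : VV z ≤ VV z ^ 7 := Nat.le_self_pow (by norm_num) _
    have h3 : 1 ≤ y ^ 9 := Nat.one_le_pow _ _ (by have := hB.ten; omega)
    calc 4 ≤ VV z ^ 7 * 1 := by omega
      _ ≤ _ := Nat.mul_le_mul_left _ h3
  have c1 : S1.card ≤ 32 * ((VV z) ^ 7 * y ^ 9) * (Bad2 z ρ (HH z y) (JJ z y)).card := by
    have hsub : S1.image (fun x => (f x, g x)) ⊆ Bad2 z ρ (HH z y) (JJ z y) := by
      intro q hq
      obtain ⟨x, hx, rfl⟩ := mem_image.1 hq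
      exact (mem_filter.1 hx).2
    have hfib : ∀ q ∈ S1.image (fun x => (f x, g x)),
        (S1.filter (fun x => (f x, g x) = q)).card ≤ 32 * ((VV z) ^ 7 * y ^ 9) := by
      intro q hq
      obtain ⟨x₀, hx₀, rfl⟩ := mem_image.1 hq
      have hx₀' := mem_Icc.1 (mem_filter.1 (mem_filter.1 hx₀).1).1
      have hgap := gap hB (lt_of_le_of_lt hx₀'.2 hX) (hfg x₀)
      set A := TT z (f x₀) ^ 4 with hA
      set r4 := RR z ρ (g x₀) ^ 4 with hr4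
      set Q := (VV z) ^ 7 * y ^ 9 with hQdef
      have hsub2 : S1.filter (fun x => (f x, g x) = (f x₀, g x₀)) ⊆
          Icc ((A - r4 - 500 * Q) / 16) ((A - r4) / 16) := by
        intro x hx
        obtain ⟨h1, h2⟩ := mem_filter.1 hx
        have h3 : f x = f x₀ := congrArg Prod.fst h2
        have h4 : g x = g x₀ := congrArg Prod.snd h2
        have h5 := hfg x
        rw [h3, h4] at h5
        have h6 := h5.1
        have h7 := h5.2.1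
        rw [mem_Icc]
        omega
      refine (card_le_card hsub2).trans ?_
      rw [Nat.card_Icc]
      omega
    calc S1.card ≤ 32 * ((VV z) ^ 7 * y ^ 9) * (S1.image (fun x => (f x, g x))).card :=
          card_le_mul_card_image S1 _ hfib
      _ ≤ _ := Nat.mul_le_mul_left _ (card_le_card hsub)
  have c2 : S2.card ≤ HH z y * (VV z ^ 4 * y ^ 12 / z ^ 4 / 16 + 2) := by
    have hsub : S2 ⊆ (range (HH z y)).biUnion (fun t =>
        Icc ((TT z t ^ 4 - VV z ^ 4 * y ^ 12 / z ^ 4) / 16) (TT z t ^ 4 / 16)) := by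
      intro x hx
      obtain ⟨hx1, hx2⟩ := mem_filter.1 hx
      obtain ⟨hx3, hx4⟩ := mem_filter.1 hx1
      rw [mem_Icc] at hx3
      have hxy := lt_of_le_of_lt hx3.2 hX
      push Not at hx4
      obtain ⟨K, hK1, hK2, hK3⟩ := hx4
      have h1 := hfg x
      have h2 : g x + 1 < 2 * K := by
        by_contra hcon
        have := found2 hz ha ha4 hB hx3.1 hxy h1 hK1 (not_lt.1 hcon) hx2
        omega
      have h3 : RR z ρ (g x + 1) ≤ RR z ρ (2 * K) := RR_le h2.le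
      have h4 := r_small hB hzy hK2
      have h5 : z * RR z ρ (g x + 1) ≤ VV z * y ^ 3 :=
        (Nat.mul_le_mul_left _ h3).trans h4
      have h6 := Nat.pow_le_pow_left h5 4
      have h7 : RR z ρ (g x + 1) ^ 4 ≤ VV z ^ 4 * y ^ 12 / z ^ 4 := by
        rw [Nat.le_div_iff_mul_le (by positivity)]
        calc RR z ρ (g x + 1) ^ 4 * z ^ 4 = (z * RR z ρ (g x + 1)) ^ 4 := by ring
          _ ≤ (VV z * y ^ 3) ^ 4 := h6
          _ = VV z ^ 4 * y ^ 12 := by ring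
      rw [mem_biUnion]
      refine ⟨f x, mem_range.2 (t_lt hB hxy h1), ?_⟩
      have h8 := h1.1
      have h9 := h1.2.1
      rw [mem_Icc]
      omega
    refine (card_le_card hsub).trans (card_biUnion_le.trans ?_)
    have h1 : ∀ t ∈ range (HH z y), (Icc ((TT z t ^ 4 - VV z ^ 4 * y ^ 12 / z ^ 4) / 16)
        (TT z t ^ 4 / 16)).card ≤ VV z ^ 4 * y ^ 12 / z ^ 4 / 16 + 2 := by
      intro t _
      rw [Nat.card_Icc]
      generalize VV z ^ 4 * y ^ 12 / z ^ 4 = D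
      generalize TT z t ^ 4 = A
      clear * -
      omega
    have h2 := sum_le_card_nsmul (range (HH z y)) _ _ h1
    rwa [card_range, smul_eq_mul] at h2
  omega

lemma total2 (z ρ : ℕ) (hz : 9 ≤ z) :
    ∃ Y₀ : ℕ, ∀ y : ℕ, Y₀ ≤ y → Big z ρ y ∧ z ≤ y ∧
      ((32 * ((VV z) ^ 7 * y ^ 9) * (Bad2 z ρ (HH z y) (JJ z y)).card +
        HH z y * (VV z ^ 4 * y ^ 12 / z ^ 4 / 16 + 2) : ℕ) : ℝ) ≤ 8000 / z * (y : ℝ) ^ 16 := by
  have hz0 : (0 : ℝ) < z := by exact_mod_cast (by omega : 0 < z)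
  obtain ⟨Y₀, hY⟩ := total' z ρ hz
  refine ⟨Y₀ + z, fun y hy => ?_⟩
  obtain ⟨hB, hT⟩ := hY y (by omega)
  refine ⟨hB, by omega, ?_⟩
  have hzy : (z : ℝ) ≤ y := by exact_mod_cast (by omega : z ≤ y)
  have hy10 : (10 : ℝ) ≤ y := by exact_mod_cast hB.ten
  have h1 : ((Bad2 z ρ (HH z y) (JJ z y)).card : ℝ) ≤ 2 * (Bad z ρ (HH z y) (JJ z y)).card := by
    exact_mod_cast card_Bad2 z ρ (HH z y) (JJ z y)
  have hV1 : (1 : ℝ) ≤ VV z := by exact_mod_cast VV_pos z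
  have h2 : (HH z y : ℝ) * (VV z : ℝ) ^ 4 ≤ 4 * (y : ℝ) ^ 4 := by
    have := HH_le hB
    unfold WW at this
    exact_mod_cast this
  have h3 : ((VV z ^ 4 * y ^ 12 / z ^ 4 / 16 : ℕ) : ℝ) ≤ (VV z : ℝ) ^ 4 * y ^ 12 / z ^ 4 / 16 := by
    refine Nat.cast_div_le.trans ?_
    have : ((VV z ^ 4 * y ^ 12 / z ^ 4 : ℕ) : ℝ) ≤ (VV z : ℝ) ^ 4 * y ^ 12 / z ^ 4 := by
      refine Nat.cast_div_le.trans ?_
      push_cast
      exact le_rfl
    push_cast at this ⊢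
    linarith
  have hH0 : (0 : ℝ) ≤ HH z y := Nat.cast_nonneg _
  have h4 : (HH z y : ℝ) ≤ 4 * (y : ℝ) ^ 4 := by
    have : (HH z y : ℝ) * 1 ≤ (HH z y : ℝ) * (VV z : ℝ) ^ 4 :=
      mul_le_mul_of_nonneg_left (one_le_pow₀ hV1) hH0
    linarith
  have h5 : (HH z y : ℝ) * ((VV z : ℝ) ^ 4 * y ^ 12 / z ^ 4 / 16) ≤ 1 / z * (y : ℝ) ^ 16 := by
    have e : (HH z y : ℝ) * ((VV z : ℝ) ^ 4 * y ^ 12 / z ^ 4 / 16) =
        ((HH z y : ℝ) * (VV z : ℝ) ^ 4) * ((y : ℝ) ^ 12 / (16 * z ^ 4)) := by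
      field_simp
    rw [e]
    have h6 : ((HH z y : ℝ) * (VV z : ℝ) ^ 4) * ((y : ℝ) ^ 12 / (16 * z ^ 4)) ≤
        (4 * (y : ℝ) ^ 4) * ((y : ℝ) ^ 12 / (16 * z ^ 4)) :=
      mul_le_mul_of_nonneg_right h2 (by positivity)
    refine h6.trans ?_
    have e2 : (4 * (y : ℝ) ^ 4) * ((y : ℝ) ^ 12 / (16 * z ^ 4)) = (1 / (4 * (z : ℝ) ^ 4)) * y ^ 16 := by
      field_simp
      ring
    rw [e2]
    apply mul_le_mul_of_nonneg_right _ (by positivity)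
    apply one_div_le_one_div_of_le hz0
    have hz1 : (1 : ℝ) ≤ z := by exact_mod_cast (by omega : 1 ≤ z)
    have h7 : (z : ℝ) ≤ z ^ 4 := le_self_pow₀ hz1 (by norm_num)
    linarith
  have h8 : 8 * (y : ℝ) ^ 4 ≤ 1 / z * (y : ℝ) ^ 16 := by
    rw [div_mul_eq_mul_div, one_mul, le_div_iff₀ hz0]
    have h9 : 8 * (y : ℝ) ^ 4 * z ≤ 8 * (y : ℝ) ^ 4 * y := mul_le_mul_of_nonneg_left hzy (by positivity)
    have h10 : (y : ℝ) ^ 16 = y ^ 5 * y ^ 11 := by ring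
    have h11 : (8 : ℝ) ≤ y ^ 11 := by
      calc (8 : ℝ) ≤ 10 ^ 11 := by norm_num
        _ ≤ y ^ 11 := pow_le_pow_left₀ (by norm_num) hy10 11
    have h12 : (y : ℝ) ^ 5 * 8 ≤ y ^ 5 * y ^ 11 := mul_le_mul_of_nonneg_left h11 (by positivity)
    have e : 8 * (y : ℝ) ^ 4 * y = y ^ 5 * 8 := by ring
    rw [h10]
    linarith
  push_cast
  have h13 : 32 * ((VV z : ℝ) ^ 7 * (y : ℝ) ^ 9) * ((Bad2 z ρ (HH z y) (JJ z y)).card : ℝ) ≤
      2 * (3840 / z * (y : ℝ) ^ 16) := by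
    have : 32 * ((VV z : ℝ) ^ 7 * (y : ℝ) ^ 9) * ((Bad2 z ρ (HH z y) (JJ z y)).card : ℝ) ≤
        32 * ((VV z : ℝ) ^ 7 * (y : ℝ) ^ 9) * (2 * (Bad z ρ (HH z y) (JJ z y)).card) :=
      mul_le_mul_of_nonneg_left h1 (by positivity)
    linarith
  have h14 : (HH z y : ℝ) * (((VV z ^ 4 * y ^ 12 / z ^ 4 / 16 : ℕ) : ℝ) + 2) ≤
      1 / z * (y : ℝ) ^ 16 + 1 / z * (y : ℝ) ^ 16 := by
    have h15 := mul_le_mul_of_nonneg_left h3 hH0
    rw [mul_add]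
    linarith
  have e : 8000 / (z : ℝ) * (y : ℝ) ^ 16 = 2 * (3840 / z * (y : ℝ) ^ 16) +
      (1 / z * (y : ℝ) ^ 16 + 1 / z * (y : ℝ) ^ 16) + 318 * (1 / z * (y : ℝ) ^ 16) := by
    ring
  have h16 : (0 : ℝ) ≤ 318 * (1 / z * (y : ℝ) ^ 16) := by positivity
  rw [e]
  linarith

end Pool.Agent.N737.AI
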