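import Pool.Agent.N737.AI.Base

set_option autoImplicit false

namespace Pool.Agent.N737.AI

open Finset Filter
open Pool.Agent.N737.BC (BadP PP mem_PP PP_mono sum_inv primes_small)

open Classical in
/-- the pairs for which the number is divisible by the square of a prime `≥ 2 z` -/
noncomputable def Bad (z ρ H J : ℕ) : Finset (ℕ × ℕ) :=
  ((range H) ×ˢ (range J)).filter (fun q => RR z ρ q.2 < TT z q.1 ∧
    ∃ p : ℕ, p.Prime ∧ 2 * z ≤ p ∧ BadP p (TT z q.1) (RR z ρ q.2))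

lemma RR_pos (z ρ i : ℕ) : 0 < RR z ρ i := by unfold RR; omega

lemma RR_lt {z ρ i j : ℕ} (h : i < j) : RR z ρ i < RR z ρ j := by
  unfold RR
  have := Nat.mul_lt_mul_of_pos_left h (WW_pos z)
  omega

lemma TT_lt {z i j : ℕ} (h : i < j) : TT z i < TT z j := by
  unfold TT
  have := Nat.mul_lt_mul_of_pos_left h (WW_pos z)
  omega

lemma p_lt {z ρ H J t i p : ℕ} (ht : t < H) (hi : i < J) (hlt : RR z ρ i < TT z t)
    (hp : p.Prime) (hb : BadP p (TT z t) (RR z ρ i)) :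
    (p ∣ TT z t ∧ p ∣ RR z ρ i ∧ p < RR z ρ J) ∨ (¬ p ∣ RR z ρ i ∧ p < 2 * TT z H) := by
  have hT := TT_lt (z := z) ht
  have hR := RR_lt (z := z) (ρ := ρ) hi
  have hr0 := RR_pos z ρ i
  rcases hb with ⟨h1, h2⟩ | ⟨h1, h2⟩
  · left
    have := Nat.le_of_dvd hr0 h2
    exact ⟨h1, h2, by omega⟩
  · right
    refine ⟨h1, ?_⟩
    set T := TT z t with hTd
    set r := RR z ρ i with hrd
    have hp0 := hp.pos
    rcases h2 with h2 | h2 | h2
    · have h3 : p ^ 2 ∣ T - r := (Nat.modEq_iff_dvd' hlt.le).1 h2.symm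
      have h4 := Nat.le_of_dvd (by omega) h3
      have h5 : p ≤ p ^ 2 := Nat.le_self_pow (by norm_num) p
      omega
    · have h4 := Nat.le_of_dvd (by omega) h2
      have h5 : p ≤ p ^ 2 := Nat.le_self_pow (by norm_num) p
      omega
    · have h4 := Nat.le_of_dvd (by positivity) h2
      by_contra hcon
      push Not at hcon
      have h5 : 2 * T < p := by omega
      nlinarith

open Classical in
lemma nat_bound (z ρ H J : ℕ) (hz : 9 ≤ z) :
    (Bad z ρ H J).card ≤ J * (∑ p ∈ QQ z (2 * TT z H), 4 * (H / p ^ 2 + 1)) +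
      ∑ p ∈ QQ z (RR z ρ J), (H / p + 1) * (J / p + 1) := by
  have hsub : Bad z ρ H J ⊆
      ((range J) ×ˢ (QQ z (2 * TT z H))).biUnion (fun a =>
        (if a.2 ∣ RR z ρ a.1 then ∅ else
          (range H).filter (fun t => BadP a.2 (WW z * t + (mm z) ^ 16) (RR z ρ a.1))).image
          (fun t => (t, a.1))) ∪
      (QQ z (RR z ρ J)).biUnion (fun p =>
        ((range H).filter (fun t => p ∣ WW z * t + (mm z) ^ 16)) ×ˢ
        ((range J).filter (fun i => p ∣ WW z * i + (ρ * (mm z) ^ 16 + 64)))) := by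
    rintro ⟨t, i⟩ hq
    obtain ⟨h1, hlt, p, hp, hzp, hb⟩ := mem_filter.1 hq
    rw [mem_product, mem_range, mem_range] at h1
    rcases p_lt h1.1 h1.2 hlt hp hb with ⟨h2, h3, h4⟩ | ⟨h2, h3⟩
    · apply mem_union_right
      rw [mem_biUnion]
      refine ⟨p, mem_QQ.2 ⟨h4, hp, hzp⟩, ?_⟩
      rw [mem_product, mem_filter, mem_filter, mem_range, mem_range]
      exact ⟨⟨h1.1, h2⟩, ⟨h1.2, h3⟩⟩
    · apply mem_union_left
      rw [mem_biUnion]
      refine ⟨(i, p), mem_product.2 ⟨mem_range.2 h1.2, mem_QQ.2 ⟨h3, hp, hzp⟩⟩, ?_⟩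
      dsimp only
      rw [if_neg h2, mem_image]
      exact ⟨t, mem_filter.2 ⟨mem_range.2 h1.1, hb⟩, rfl⟩
  refine (card_le_card hsub).trans ((card_union_le _ _).trans (Nat.add_le_add ?_ ?_))
  · refine card_biUnion_le.trans ?_
    rw [sum_product]
    have hcard : ∀ f : ℕ → ℕ, ∀ n : ℕ, (∀ i ∈ range J, f i ≤ n) → ∑ i ∈ range J, f i ≤ J * n := by
      intro f n hf
      have := sum_le_card_nsmul (range J) f n hf
      rwa [card_range, smul_eq_mul] at this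
    apply hcard
    intro i _
    apply sum_le_sum
    intro p hp
    rw [mem_QQ] at hp
    refine card_image_le.trans ?_
    dsimp only
    by_cases hd : p ∣ RR z ρ i
    · rw [if_pos hd]; simp
    · rw [if_neg hd]
      exact cntP hp.2.1 (by omega) (cop_WW hp.2.1 (by omega) hp.2.2) H _ hd
  · refine card_biUnion_le.trans (sum_le_sum ?_)
    intro p hp
    rw [mem_QQ] at hp
    rw [card_product]
    exact Nat.mul_le_mul (cntA hp.2.1 (cop_WW hp.2.1 (by omega) hp.2.2) H)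
      (cntA hp.2.1 (cop_WW hp.2.1 (by omega) hp.2.2) J)

lemma div_le' (a b : ℕ) : (((a / b : ℕ)) : ℝ) ≤ (a : ℝ) / b := Nat.cast_div_le

lemma real1 (z B H : ℕ) (hz : 9 ≤ z) : ((∑ p ∈ QQ z B, 4 * (H / p ^ 2 + 1) : ℕ) : ℝ) ≤
    4 * H / z + 4 * (PP B).card := by
  push_cast
  have h1 : ∑ p ∈ QQ z B, 4 * (((H / p ^ 2 : ℕ) : ℝ) + 1) ≤
      ∑ p ∈ QQ z B, (4 * (H : ℝ) * (1 / (p : ℝ) ^ 2) + 4) := by
    apply sum_le_sum
    intro p _
    have := div_le' H (p ^ 2)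
    push_cast at this
    have e : (H : ℝ) * (1 / (p : ℝ) ^ 2) = H / (p : ℝ) ^ 2 := by ring
    nlinarith
  refine h1.trans ?_
  rw [sum_add_distrib, ← mul_sum, sum_const, nsmul_eq_mul]
  have h2 := QQ_sq (z := z) (B := B) (by omega)
  have h3 : ((QQ z B).card : ℝ) ≤ (PP B).card := by
    exact_mod_cast card_le_card (QQ_sub hz)
  have hH : (0 : ℝ) ≤ H := Nat.cast_nonneg H
  have h4 : 4 * (H : ℝ) * ∑ p ∈ QQ z B, 1 / (p : ℝ) ^ 2 ≤ 4 * H * (1 / z) :=
    mul_le_mul_of_nonneg_left h2 (by positivity)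
  have e : 4 * (H : ℝ) * (1 / z) = 4 * H / z := by ring
  linarith

lemma real2 (z B H J : ℕ) (hz : 9 ≤ z) :
    ((∑ p ∈ QQ z B, (H / p + 1) * (J / p + 1) : ℕ) : ℝ) ≤
      H * J / z + (H + J) * (1 + Real.log B) + B := by
  push_cast
  have h1 : ∑ p ∈ QQ z B, (((H / p : ℕ) : ℝ) + 1) * (((J / p : ℕ) : ℝ) + 1) ≤
      ∑ p ∈ QQ z B, ((H : ℝ) * J * (1 / (p : ℝ) ^ 2) + (H + J) * (1 / (p : ℝ)) + 1) := by
    apply sum_le_sum
    intro p hp
    rw [mem_QQ] at hp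
    have hp0 : (0 : ℝ) < p := by exact_mod_cast hp.2.1.pos
    have h2 := div_le' H p
    have h3 := div_le' J p
    have e : (H : ℝ) * J * (1 / (p : ℝ) ^ 2) + (H + J) * (1 / (p : ℝ)) + 1 =
        ((H : ℝ) / p + 1) * ((J : ℝ) / p + 1) := by
      field_simp
      ring
    rw [e]
    apply mul_le_mul
    · linarith
    · linarith
    · positivity
    · positivity
  refine h1.trans ?_
  rw [sum_add_distrib, sum_add_distrib, ← mul_sum, ← mul_sum, sum_const, nsmul_eq_mul, mul_one]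
  have h2 := QQ_sq (z := z) (B := B) (by omega)
  have h3 : ∑ p ∈ QQ z B, 1 / (p : ℝ) ≤ 1 + Real.log B :=
    (sum_le_sum_of_subset_of_nonneg (QQ_sub hz) (fun _ _ _ => by positivity)).trans (sum_inv B)
  have h4 : ((QQ z B).card : ℝ) ≤ B := by
    have : (QQ z B).card ≤ (range B).card := card_le_card (filter_subset _ _)
    rw [card_range] at this
    exact_mod_cast this
  have hHJ : (0 : ℝ) ≤ (H : ℝ) * J := by positivity
  have hHJ' : (0 : ℝ) ≤ (H : ℝ) + J := by positivity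
  have h5 := mul_le_mul_of_nonneg_left h2 hHJ
  have h6 := mul_le_mul_of_nonneg_left h3 hHJ'
  have e : (H : ℝ) * J * (1 / z) = H * J / z := by ring
  linarith

lemma log_ev (k : ℕ) (hk : 1 ≤ k) (η : ℝ) (hη : 0 < η) :
    ∃ J₀ : ℕ, ∀ J : ℕ, J₀ ≤ J → 2 * (1 + Real.log ((k * J : ℕ) : ℝ)) + k ≤ η * J := by
  have h1 := (Real.isLittleO_log_id_atTop.bound (show 0 < η / 4 by positivity))
  have h2 := tendsto_natCast_atTop_atTop (R := ℝ) |>.eventually h1
  have h3 : ∀ᶠ J : ℕ in atTop, (2 + 2 * Real.log k + k) / (η / 2) ≤ (J : ℝ) :=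
    tendsto_natCast_atTop_atTop.eventually_ge_atTop _
  obtain ⟨J₀, hJ⟩ := eventually_atTop.1 ((h2.and h3).and (eventually_ge_atTop 1))
  refine ⟨J₀, fun J hJJ => ?_⟩
  obtain ⟨⟨h4, h5⟩, h6⟩ := hJ J hJJ
  have hk0 : (0 : ℝ) < k := by exact_mod_cast hk
  have hJ0 : (0 : ℝ) < J := by exact_mod_cast h6
  rw [div_le_iff₀ (by positivity)] at h5
  have h7 : Real.log J ≤ η / 4 * J := by
    simp only [id, Real.norm_eq_abs] at h4
    rw [abs_of_pos hJ0] at h4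
    exact (le_abs_self _).trans h4
  push_cast
  rw [Real.log_mul hk0.ne' hJ0.ne']
  nlinarith

/-- the proportion of the bad pairs is small -/
lemma total (z ρ : ℕ) (hz : 9 ≤ z) (η : ℝ) (hη : 0 < η) :
    ∃ N₀ : ℕ, ∀ H J : ℕ, N₀ ≤ J → J ≤ H →
      ((Bad z ρ H J).card : ℝ) ≤ (5 / z + η) * (H * J) := by
  obtain ⟨H₀, hH₀⟩ := primes_small (2 * (WW z + (mm z) ^ 16)) (η / 8) (by positivity)
    (by have := WW_pos z; positivity)
  obtain ⟨J₀, hJ₀⟩ := log_ev (WW z + (ρ * (mm z) ^ 16 + 64)) (by omega) (η / 2) (by positivity)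
  refine ⟨H₀ + J₀ + 1, fun H J hJ hJH => ?_⟩
  have h1 := nat_bound z ρ H J hz
  have h2 : ((Bad z ρ H J).card : ℝ) ≤ J * (((∑ p ∈ QQ z (2 * TT z H), 4 * (H / p ^ 2 + 1) : ℕ) : ℝ))
      + ((∑ p ∈ QQ z (RR z ρ J), (H / p + 1) * (J / p + 1) : ℕ) : ℝ) := by
    exact_mod_cast h1
  have h3 := real1 z (2 * TT z H) H hz
  have h4 := real2 z (RR z ρ J) H J hz
  have h5 := hH₀ H (by omega)
  have h6 := hJ₀ J (by omega)
  have hJ1 : (1 : ℝ) ≤ J := by exact_mod_cast (by omega : 1 ≤ J)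
  have hH1 : (1 : ℝ) ≤ H := by exact_mod_cast (by omega : 1 ≤ H)
  have hJHr : (J : ℝ) ≤ H := by exact_mod_cast hJH
  have h7 : 2 * TT z H ≤ 2 * (WW z + (mm z) ^ 16) * H := by
    unfold TT
    have : (mm z) ^ 16 * 1 ≤ (mm z) ^ 16 * H := Nat.mul_le_mul_left _ (by omega)
    nlinarith
  have h8 : ((PP (2 * TT z H)).card : ℝ) ≤ η / 8 * H := by
    refine le_trans ?_ h5
    exact_mod_cast card_le_card (PP_mono h7)
  have h9 : RR z ρ J ≤ (WW z + (ρ * (mm z) ^ 16 + 64)) * J := by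
    unfold RR
    have : (ρ * (mm z) ^ 16 + 64) * 1 ≤ (ρ * (mm z) ^ 16 + 64) * J := Nat.mul_le_mul_left _ (by omega)
    nlinarith
  have hR0 : (0 : ℝ) < RR z ρ J := by exact_mod_cast RR_pos z ρ J
  have h9r : ((RR z ρ J : ℕ) : ℝ) ≤ (((WW z + (ρ * (mm z) ^ 16 + 64)) * J : ℕ) : ℝ) := by
    exact_mod_cast h9
  have h10 : Real.log (RR z ρ J) ≤ Real.log (((WW z + (ρ * (mm z) ^ 16 + 64)) * J : ℕ) : ℝ) :=
    Real.log_le_log hR0 h9r
  set L := Real.log (((WW z + (ρ * (mm z) ^ 16 + 64)) * J : ℕ) : ℝ) with hL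
  set k : ℝ := ((WW z + (ρ * (mm z) ^ 16 + 64) : ℕ) : ℝ) with hk
  have hk9 : ((RR z ρ J : ℕ) : ℝ) ≤ k * J := by
    rw [hk]; exact_mod_cast h9
  have hz0 : (0 : ℝ) < z := by exact_mod_cast (by omega : 0 < z)
  have hR1 : (1 : ℝ) ≤ RR z ρ J := by exact_mod_cast RR_pos z ρ J
  have hlog0 : 0 ≤ 1 + Real.log (RR z ρ J) := by
    have := Real.log_nonneg hR1
    linarith
  have h11 : ((H : ℝ) + J) * (1 + Real.log (RR z ρ J)) ≤ 2 * H * (1 + L) := by
    apply mul_le_mul (by linarith) (by linarith) hlog0 (by positivity)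
  have h12 : ((RR z ρ J : ℕ) : ℝ) ≤ k * H := hk9.trans (mul_le_mul_of_nonneg_left hJHr (by rw [hk]; positivity))
  have h13 : 2 * (H : ℝ) * (1 + L) + k * H ≤ H * (η / 2 * J) := by
    have := mul_le_mul_of_nonneg_left h6 (by positivity : (0 : ℝ) ≤ H)
    nlinarith
  have h14 : (J : ℝ) * (4 * H / z + 4 * (PP (2 * TT z H)).card) ≤ J * (4 * H / z + 4 * (η / 8 * H)) :=
    mul_le_mul_of_nonneg_left (by linarith) (by positivity)
  have h15 : (J : ℝ) * (((∑ p ∈ QQ z (2 * TT z H), 4 * (H / p ^ 2 + 1) : ℕ) : ℝ)) ≤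
      J * (4 * H / z + 4 * (η / 8 * H)) :=
    (mul_le_mul_of_nonneg_left h3 (by positivity)).trans h14
  have e : (5 / (z : ℝ) + η) * (H * J) = J * (4 * H / z + 4 * (η / 8 * H)) + (H * J / z) +
      H * (η / 2 * J) := by
    field_simp
    ring
  rw [e]
  linarith

end Pool.Agent.N737.AI
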