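import Pool.Agent.N737.AI.Multi2

set_option autoImplicit false

namespace Pool.Agent.N737.AI

open Finset Filter

open Classical in
lemma single (z : ℕ) (hz : 9 ≤ z) (a : ℕ) (ha4 : a % 4 ≠ 0) :
    ∃ Y₀ : ℕ, ∀ y : ℕ, Y₀ ≤ y → ∀ X : ℕ, y ^ 16 ≤ X → X < (y + 1) ^ 16 →
      (((Icc 1 X).filter (fun x => ¬ ∀ K, 1 ≤ K → 4 * VV z ^ 3 * z * K ≤ y ^ 3 →
        K ≤ (Nums a x (63 * (K * ((VV z) ^ 7 * y ^ 9)))).ncard)).card : ℝ) ≤ 8000 / z * X := by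
  obtain ⟨ρ, hρ⟩ := exists_rho a
  obtain ⟨Y₀, hY⟩ := total2 z ρ hz
  refine ⟨Y₀, fun y hy X hX1 hX2 => ?_⟩
  obtain ⟨hB, hzy, hT⟩ := hY y hy
  have h1 := count2 hz hρ ha4 hB hzy hX2
  have hXr : (y : ℝ) ^ 16 ≤ X := by exact_mod_cast hX1
  have h2 : 8000 / (z : ℝ) * (y : ℝ) ^ 16 ≤ 8000 / z * X :=
    mul_le_mul_of_nonneg_left hXr (div_nonneg (by norm_num) (Nat.cast_nonneg z))
  exact (Nat.cast_le.2 h1).trans (hT.trans h2)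

/-- the numbers of the class in the interval `[x, x + D]`, `D` real -/
def NumsR (r : ℕ) (x : ℕ) (D : ℝ) : Set ℕ :=
  {n | x ≤ n ∧ (n : ℝ) ≤ x + D ∧ n % 16 = r ∧ Squarefree n ∧ Cong n}

lemma NumsR_fin (r x : ℕ) (D : ℝ) : (NumsR r x D).Finite :=
  (Set.finite_Iic ⌊(x : ℝ) + D⌋₊).subset fun _ h => Nat.le_floor h.2.1

lemma conv {z y X x K r : ℕ} (hr : r < 16) (hX : (y : ℝ) ^ 16 ≤ X) :
    (Nums r x (63 * (K * ((VV z) ^ 7 * y ^ 9)))).ncard ≤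
      (NumsR r x (63 * (VV z : ℝ) ^ 7 * K * (X : ℝ) ^ (9 / 16 : ℝ))).ncard := by
  apply Set.ncard_le_ncard _ (NumsR_fin _ _ _)
  rintro n ⟨h1, h2, h3, h4, h5⟩
  have h9 : (y : ℝ) ^ 9 ≤ (X : ℝ) ^ (9 / 16 : ℝ) := by
    have h2 : ((y : ℝ) ^ 16) ^ (9 / 16 : ℝ) ≤ (X : ℝ) ^ (9 / 16 : ℝ) :=
      Real.rpow_le_rpow (pow_nonneg (Nat.cast_nonneg y) 16) hX (by norm_num)
    have h3 : ((y : ℝ) ^ 16) ^ (9 / 16 : ℝ) = (y : ℝ) ^ 9 := by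
      rw [← Real.rpow_natCast, ← Real.rpow_mul (Nat.cast_nonneg y), ← Real.rpow_natCast]
      norm_num
    rwa [h3] at h2
  refine ⟨h1, ?_, by omega, h4, h5⟩
  have h6 : (n : ℝ) ≤ x + 63 * (VV z : ℝ) ^ 7 * K * (y : ℝ) ^ 9 := by
    have h7 : n ≤ x + 63 * (VV z) ^ 7 * K * y ^ 9 := by
      have e : 63 * (K * ((VV z) ^ 7 * y ^ 9)) = 63 * (VV z) ^ 7 * K * y ^ 9 := by ring
      rw [← e]; exact h2
    exact_mod_cast h7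
  have h8 : (0 : ℝ) ≤ 63 * (VV z : ℝ) ^ 7 * K :=
    mul_nonneg (mul_nonneg (by norm_num) (pow_nonneg (Nat.cast_nonneg _) _)) (Nat.cast_nonneg _)
  have h10 := mul_le_mul_of_nonneg_left h9 h8
  linarith

lemma convK {z y X K : ℕ} (hz : 9 ≤ z) (hy : 1 ≤ y) (hX : X < (y + 1) ^ 16)
    (hK : (K : ℝ) ≤ 1 / (32 * (VV z : ℝ) ^ 3 * z) * (X : ℝ) ^ (3 / 16 : ℝ)) :
    4 * VV z ^ 3 * z * K ≤ y ^ 3 := by
  have hz0 : (0 : ℝ) < z := by exact_mod_cast (by omega : 0 < z)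
  have hV0 : (0 : ℝ) < VV z := by exact_mod_cast VV_pos z
  have hXr : (X : ℝ) ≤ ((y : ℝ) + 1) ^ 16 := by
    have : ((X : ℕ) : ℝ) ≤ (((y + 1) ^ 16 : ℕ) : ℝ) := Nat.cast_le.2 hX.le
    push_cast at this
    exact this
  clear hX
  have h9 : (X : ℝ) ^ (3 / 16 : ℝ) ≤ ((y : ℝ) + 1) ^ 3 := by
    have h2 : (X : ℝ) ^ (3 / 16 : ℝ) ≤ (((y : ℝ) + 1) ^ 16) ^ (3 / 16 : ℝ) :=
      Real.rpow_le_rpow (Nat.cast_nonneg X) hXr (by norm_num)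
    have h3 : (((y : ℝ) + 1) ^ 16) ^ (3 / 16 : ℝ) = ((y : ℝ) + 1) ^ 3 := by
      have hy0 : (0 : ℝ) ≤ (y : ℝ) + 1 := by linarith [Nat.cast_nonneg (α := ℝ) y]
      rw [← Real.rpow_natCast, ← Real.rpow_mul hy0, ← Real.rpow_natCast]
      norm_num
    rwa [h3] at h2
  have hy1 : (1 : ℝ) ≤ y := by exact_mod_cast hy
  have h10 : ((y : ℝ) + 1) ^ 3 ≤ 8 * (y : ℝ) ^ 3 := by
    have : ((y : ℝ) + 1) ^ 3 ≤ (2 * y) ^ 3 := pow_le_pow_left₀ (by linarith) (by linarith) 3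
    calc ((y : ℝ) + 1) ^ 3 ≤ (2 * y) ^ 3 := this
      _ = 8 * (y : ℝ) ^ 3 := by ring
  have h11 : (0 : ℝ) < 32 * (VV z : ℝ) ^ 3 * z :=
    mul_pos (mul_pos (by norm_num) (pow_pos hV0 3)) hz0
  have h12 : (K : ℝ) * (32 * (VV z : ℝ) ^ 3 * z) ≤ 8 * (y : ℝ) ^ 3 := by
    rw [div_mul_eq_mul_div, one_mul, le_div_iff₀ h11] at hK
    linarith
  have e13 : (K : ℝ) * (32 * (VV z : ℝ) ^ 3 * z) = 8 * (4 * (VV z : ℝ) ^ 3 * z * K) := by ring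
  have h13 : (4 * (VV z : ℝ) ^ 3 * z * K) ≤ (y : ℝ) ^ 3 := by linarith
  exact_mod_cast h13

open Classical in
/-- all classes modulo `16` which contain squarefree numbers and all scales, at the same time -/
theorem main2 (ε : ℝ) (hε : 0 < ε) :
    ∃ c C : ℝ, 0 < c ∧ 0 < C ∧ ∃ X₀ : ℕ, ∀ X : ℕ, X₀ ≤ X →
      (((Icc 1 X).filter (fun x : ℕ => ¬ ∀ r : ℕ, r < 16 → r % 4 ≠ 0 → ∀ K : ℕ, 1 ≤ K →
        (K : ℝ) ≤ c * (X : ℝ) ^ (3 / 16 : ℝ) →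
          K ≤ (NumsR r x (C * K * (X : ℝ) ^ (9 / 16 : ℝ))).ncard)).card : ℝ) ≤ ε * X := by
  obtain ⟨z, hz9, hzε⟩ : ∃ z : ℕ, 9 ≤ z ∧ 12 * (8000 / (z : ℝ)) ≤ ε := by
    obtain ⟨z0, hz0⟩ := exists_nat_ge (96000 / ε)
    refine ⟨z0 + 9, by omega, ?_⟩
    have hzr : (0 : ℝ) < ((z0 + 9 : ℕ) : ℝ) := by exact_mod_cast (by omega : 0 < z0 + 9)
    have e : 12 * (8000 / ((z0 + 9 : ℕ) : ℝ)) = 96000 / ((z0 + 9 : ℕ) : ℝ) := by ring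
    rw [e, div_le_iff₀ hzr]
    rw [div_le_iff₀ hε] at hz0
    push_cast
    nlinarith
  have hzr : (0 : ℝ) < z := by exact_mod_cast (by omega : 0 < z)
  have hV0 : (0 : ℝ) < VV z := by exact_mod_cast VV_pos z
  have h : ∀ r : ℕ, ∃ Y₀ : ℕ, r % 4 ≠ 0 → ∀ y : ℕ, Y₀ ≤ y → ∀ X : ℕ, y ^ 16 ≤ X →
      X < (y + 1) ^ 16 →
      (((Icc 1 X).filter (fun x => ¬ ∀ K, 1 ≤ K → 4 * VV z ^ 3 * z * K ≤ y ^ 3 →
        K ≤ (Nums r x (63 * (K * ((VV z) ^ 7 * y ^ 9)))).ncard)).card : ℝ) ≤ 8000 / z * X := by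
    intro r
    by_cases h4 : r % 4 = 0
    · exact ⟨0, fun h => absurd h4 h⟩
    · obtain ⟨Y₀, hY⟩ := single z hz9 r h4
      exact ⟨Y₀, fun _ => hY⟩
  choose Y hY using h
  refine ⟨1 / (32 * (VV z : ℝ) ^ 3 * z), 63 * (VV z : ℝ) ^ 7,
    one_div_pos.2 (mul_pos (mul_pos (by norm_num) (pow_pos hV0 3)) hzr),
    mul_pos (by norm_num) (pow_pos hV0 7), (∑ r ∈ range 16, Y r + 2) ^ 16, fun X hX => ?_⟩
  obtain ⟨y, hy1, hy2⟩ : ∃ y : ℕ, y ^ 16 ≤ X ∧ X < (y + 1) ^ 16 := by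
    have hex : ∃ y : ℕ, X < (y + 1) ^ 16 :=
      ⟨X, lt_of_lt_of_le (Nat.lt_succ_self X) (Nat.le_self_pow (by norm_num) _)⟩
    refine ⟨Nat.find hex, ?_, Nat.find_spec hex⟩
    rcases Nat.eq_zero_or_pos (Nat.find hex) with h0 | h0
    · rw [h0]; simp
    · have := Nat.find_min hex (m := Nat.find hex - 1) (by omega)
      rw [Nat.sub_add_cancel h0] at this
      exact not_lt.1 this
  have hYy : ∑ r ∈ range 16, Y r + 1 ≤ y := by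
    by_contra hcon
    have h1 : (y + 1) ^ 16 ≤ (∑ r ∈ range 16, Y r + 2) ^ 16 := Nat.pow_le_pow_left (by omega) 16
    exact absurd (lt_of_lt_of_le hy2 (h1.trans hX)) (lt_irrefl _)
  clear hX
  have hXr : (y : ℝ) ^ 16 ≤ X := by exact_mod_cast hy1
  have hsub : (Icc 1 X).filter (fun x : ℕ => ¬ ∀ r : ℕ, r < 16 → r % 4 ≠ 0 → ∀ K : ℕ, 1 ≤ K →
        (K : ℝ) ≤ 1 / (32 * (VV z : ℝ) ^ 3 * z) * (X : ℝ) ^ (3 / 16 : ℝ) →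
          K ≤ (NumsR r x (63 * (VV z : ℝ) ^ 7 * K * (X : ℝ) ^ (9 / 16 : ℝ))).ncard) ⊆
      ((range 16).filter (fun r => r % 4 ≠ 0)).biUnion (fun r =>
        (Icc 1 X).filter (fun x => ¬ ∀ K, 1 ≤ K → 4 * VV z ^ 3 * z * K ≤ y ^ 3 →
        K ≤ (Nums r x (63 * (K * ((VV z) ^ 7 * y ^ 9)))).ncard)) := by
    intro x hx
    obtain ⟨hx1, hx2⟩ := mem_filter.1 hx
    push Not at hx2
    obtain ⟨r, hr, hr4, K, hK1, hK2, hK3⟩ := hx2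
    rw [mem_biUnion]
    refine ⟨r, mem_filter.2 ⟨mem_range.2 hr, hr4⟩, mem_filter.2 ⟨hx1, fun hall => ?_⟩⟩
    have h1 := hall K hK1 (convK hz9 (by omega) hy2 hK2)
    have h2 := h1.trans (conv hr hXr)
    exact absurd hK3 (not_lt.2 h2)
  have h1 := (card_le_card hsub).trans card_biUnion_le
  have h3 : ∑ r ∈ (range 16).filter (fun r => r % 4 ≠ 0), (((Icc 1 X).filter (fun x => ¬ ∀ K,
      1 ≤ K → 4 * VV z ^ 3 * z * K ≤ y ^ 3 →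
        K ≤ (Nums r x (63 * (K * ((VV z) ^ 7 * y ^ 9)))).ncard)).card : ℝ) ≤
      ∑ r ∈ (range 16).filter (fun r => r % 4 ≠ 0), 8000 / (z : ℝ) * X := by
    apply sum_le_sum
    intro r hr
    obtain ⟨hr1, hr2⟩ := mem_filter.1 hr
    refine hY r hr2 y ?_ X hy1 hy2
    have := single_le_sum (f := Y) (fun i _ => Nat.zero_le _) hr1
    omega
  have h4 : ((((range 16).filter (fun r => r % 4 ≠ 0)).card : ℕ) : ℝ) = 12 := by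
    have : ((range 16).filter (fun r => r % 4 ≠ 0)).card = 12 := by decide
    rw [this]; norm_num
  rw [sum_const, nsmul_eq_mul, h4] at h3
  have h5 : (12 : ℝ) * (8000 / (z : ℝ) * X) ≤ ε * X := by
    rw [← mul_assoc]
    exact mul_le_mul_of_nonneg_right hzε (Nat.cast_nonneg X)
  refine le_trans ?_ (h3.trans h5)
  exact_mod_cast h1

end Pool.Agent.N737.AI
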